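import Pool.Agent.Y221.FQ.Cnv
import Pool.Agent.Y221.BD.Bd

/-!
The special sets of the images of finite morphisms from covers of systems of high powers.
-/

set_option autoImplicit false
set_option maxHeartbeats 400000
set_option linter.overlappingInstances false
set_option linter.unusedSectionVars false

namespace Pool.Agent.Y221.FQ

open Pool.Agent.W602.GT Pool.Agent.Y221.BD
open Pool.Agent.Y221.AB (NB one_le_NB)

variable {m n M : ℕ} {ι κ μ : Type}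
  {Ψ : κ → MvPolynomial (Fin (m + 1)) ℂ} {F : ι → MvPolynomial (Fin (n + 1)) ℂ}
  {Φ : μ → MvPolynomial (Fin (M + 1)) ℂ} {G : Fin (M + 1) → MvPolynomial (Fin (m + 1)) ℂ}
  {B : Fin (n + 1) → MvPolynomial (Fin (m + 1)) ℂ}

/-- The image under `G` of the inverse image under `B` of the closure of the union of the images of
the multiplicative group in `{F = 0}`. -/
def CoverGm (Ψ : κ → MvPolynomial (Fin (m + 1)) ℂ) (F : ι → MvPolynomial (Fin (n + 1)) ℂ)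
    (B : Fin (n + 1) → MvPolynomial (Fin (m + 1)) ℂ)
    (G : Fin (M + 1) → MvPolynomial (Fin (m + 1)) ℂ) : Set (Fin (M + 1) → ℂ) :=
  im G '' {x | x ∈ Cone Ψ ∧ im B x ∈ SpGm F}

/-- **Covers and their images.** -/
theorem special_cover (hΨ : ∀ e, IsForm (Ψ e)) (hB : Mor Ψ F B) (hG : Mor Ψ Φ G)
    (hon : Onto Ψ Φ G) {r s N : ℕ} (hfib : FibresLe Ψ G r) (hF : HighPowers s N F) (hn : 1 ≤ n)
    (hN : n * (4 * 10 ^ s * (r + 1) ^ 7) ≤ N) :
    SpH Φ ⊆ CoverGm Ψ F B G ∧ SpP Φ ⊆ CoverGm Ψ F B G ∧ SpAlg Φ ⊆ CoverGm Ψ F B G := by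
  obtain ⟨hN2, hN3⟩ := both hn hN
  have hN1 : 1 ≤ N := (one_le_NB r s).trans hN2
  have key : ∀ q : Fin (M + 1) → ℂ, q ∈ Cone Φ → (∀ H : MvPolynomial (Fin (M + 1)) ℂ, IsForm H →
      (∀ x ∈ Cone Ψ, im B x ∈ SpGm F → val (im G x) H = 0) → val q H = 0) →
      q ∈ CoverGm Ψ F B G := by
    intro q hq h
    obtain ⟨x, hx, hBx, hxq⟩ := closed_im hΨ hB hG hq.1 h
    exact ⟨x, ⟨hx, hBx⟩, hxq⟩
  have hP : SpP Φ ⊆ CoverGm Ψ F B G := by
    rintro q ⟨hq, h⟩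
    exact key q hq fun H hH hx => h H hH fun f hf t ht =>
      essential_van hΨ hB hG hon hfib hF hN2 hf hH hx ht
  refine ⟨fun q hq => hP (h_sub_p hq), hP, ?_⟩
  rintro q ⟨hq, h⟩
  exact key q hq fun H hH hx => h H hH fun K _ _ w z hw hz hgt =>
    sub_van hΨ hB hG hon hfib hF hN1 hN3 hw hz hgt hH hx

theorem im_X {K : Type} [Field K] [Algebra ℂ K] (x : Fin (n + 1) → K) :
    im (fun i => (MvPolynomial.X i : MvPolynomial (Fin (n + 1)) ℂ)) x = x := by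
  funext i
  exact MvPolynomial.aeval_X _ i

theorem mor_X : Mor F F fun i => MvPolynomial.X i :=
  ⟨⟨1, le_rfl, fun j => MvPolynomial.isHomogeneous_X ℂ j⟩, fun x hx => by rw [im_X]; exact hx⟩

/-- **Images.** -/
theorem special_im {G : Fin (M + 1) → MvPolynomial (Fin (n + 1)) ℂ} (hΦ : ∀ e, IsForm (Φ e))
    (hG : Mor F Φ G) (hon : Onto F Φ G) {r s N : ℕ} (hfib : FibresLe F G r)
    (hF : HighPowers s N F) (hn : 1 ≤ n) (hN : n * (4 * 10 ^ s * (r + 1) ^ 7) ≤ N) :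
    SpH Φ = SpGm Φ ∧ SpP Φ = SpGm Φ ∧ SpAlg Φ = SpGm Φ ∧ SpGm Φ = im G '' SpGm F := by
  obtain ⟨h1, h2, h3⟩ := special_cover (B := fun i => MvPolynomial.X i) hF.form mor_X hG hon hfib
    hF hn hN
  have h4 : CoverGm F F (fun i => MvPolynomial.X i) G ⊆ im G '' SpGm F := by
    rintro _ ⟨x, ⟨hx, hBx⟩, rfl⟩
    rw [im_X] at hBx
    exact ⟨x, hBx, rfl⟩
  have h5 : im G '' SpGm F ⊆ SpGm Φ := by
    rintro _ ⟨x, hx, rfl⟩
    exact spgm_im hF.form hG hx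
  have h6 : SpGm Φ ⊆ SpH Φ := gm_sub_h
  have h7 : SpGm Φ ⊆ SpAlg Φ := gm_sub_alg hΦ
  have h8 : SpH Φ ⊆ SpP Φ := h_sub_p
  exact ⟨Set.Subset.antisymm ((h1.trans h4).trans h5) h6,
    Set.Subset.antisymm ((h2.trans h4).trans h5) (h6.trans h8),
    Set.Subset.antisymm ((h3.trans h4).trans h5) h7,
    Set.Subset.antisymm (h6.trans (h1.trans h4)) h5⟩

/-- lines -/
theorem sp_line {s N r : ℕ} (hF : ∀ e, IsPowSum s N (F e)) (hn : 1 ≤ n)
    (hN : n * (4 * 10 ^ s * (r + 1) ^ 7) ≤ N) : SpGm F = SpLine F := by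
  have hN' : n * ((s + 1) * tn (s - 1)) ≤ N := by
    refine le_trans (Nat.mul_le_mul_left _ ?_) hN
    have h1 := cubic_le s
    rw [Pool.Agent.TH466.QG.tn_eq]
    calc (s + 1) * ((s - 1) * (s - 2) / 2) ≤ (s + 4) * ((s - 1) * (s - 2) / 2) :=
          Nat.mul_le_mul_right _ (by omega)
      _ ≤ 4 * 10 ^ s := h1
      _ ≤ 4 * 10 ^ s * (r + 1) ^ 7 := Nat.le_mul_of_pos_right _ (by positivity)
  have hN1 : 1 ≤ N := by
    refine le_trans ?_ hN
    exact Nat.one_le_iff_ne_zero.2 (by positivity)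
  exact (special hF hN1 hN').2

theorem gm_empty {k : Type} [Field k] {F : ι → MvPolynomial (Fin (n + 1)) k}
    (h : ∀ P, ¬ GmCurve F P) : SpGm F = ∅ := by
  rw [Set.eq_empty_iff_forall_notMem]
  rintro x ⟨-, hx⟩
  have h1 := hx 1 ⟨0, MvPolynomial.isHomogeneous_one _ _⟩ fun P hP => absurd hP (h P)
  have h2 : val x (1 : MvPolynomial (Fin (n + 1)) k) = 1 := map_one _
  rw [h2] at h1
  exact one_ne_zero h1

/-- **Hyperbolicity of the images of covers.** -/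
theorem hyp_cover (hΨ : ∀ e, IsForm (Ψ e)) (hB : Mor Ψ F B) (hG : Mor Ψ Φ G)
    (hon : Onto Ψ Φ G) {r s N : ℕ} (hfib : FibresLe Ψ G r) (hF : HighPowers s N F) (hn : 1 ≤ n)
    (hN : n * (4 * 10 ^ s * (r + 1) ^ 7) ≤ N) (hGm : ∀ P, ¬ GmCurve F P) :
    (∀ f, ¬ Entire Φ f) ∧ (∀ f, ¬ Essential Φ f) ∧ AllGeneral Φ := by
  obtain ⟨hN2, hN3⟩ := both hn hN
  have hN1 : 1 ≤ N := (one_le_NB r s).trans hN2
  have hx : ∀ x ∈ Cone Ψ, im B x ∈ SpGm F →
      val (im G x) (1 : MvPolynomial (Fin (M + 1)) ℂ) = 0 := by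
    intro x _ hBx
    rw [gm_empty hGm] at hBx
    exact absurd hBx (Set.notMem_empty _)
  have hform : IsForm (1 : MvPolynomial (Fin (M + 1)) ℂ) := ⟨0, MvPolynomial.isHomogeneous_one _ _⟩
  have hE : ∀ f, ¬ Essential Φ f := by
    intro f hf
    have h1 := essential_van hΨ hB hG hon hfib hF hN2 hf hform hx (t0 := 1 / 2) (by
      refine ⟨?_, by norm_num⟩
      rw [mem_ball_zero_iff]
      norm_num)
    have h2 : val (f (1 / 2)) (1 : MvPolynomial (Fin (M + 1)) ℂ) = 1 := map_one _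
    rw [h2] at h1
    exact one_ne_zero h1
  refine ⟨fun f hf => hE _ (essential_of_entire hf), hE, ?_⟩
  intro K _ _ w z hw hz
  by_contra hgt
  have h1 := sub_van hΨ hB hG hon hfib hF hN1 hN3 hw hz hgt hform hx
  have h2 : val z (1 : MvPolynomial (Fin (M + 1)) ℂ) = 1 := map_one _
  rw [h2] at h1
  exact one_ne_zero h1

/-- **Hyperbolicity of images.** -/
theorem hyp_im {G : Fin (M + 1) → MvPolynomial (Fin (n + 1)) ℂ} (hΦ : ∀ e, IsForm (Φ e))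
    (hG : Mor F Φ G) (hon : Onto F Φ G) {r s N : ℕ} (hfib : FibresLe F G r)
    (hF : HighPowers s N F) (hn : 1 ≤ n) (hN : n * (4 * 10 ^ s * (r + 1) ^ 7) ≤ N) :
    [∀ f, ¬ Entire Φ f, AllGeneral Φ, ∀ f, ¬ Essential Φ f, ∀ P, ¬ GmCurve Φ P,
      ∀ P, ¬ GmCurve F P].TFAE := by
  have h0 : (∀ P, ¬ GmCurve F P) → (∀ f, ¬ Entire Φ f) ∧ (∀ f, ¬ Essential Φ f) ∧ AllGeneral Φ :=
    hyp_cover (B := fun i => MvPolynomial.X i) hF.form mor_X hG hon hfib hF hn hN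
  tfae_have 5 → 1 := fun h => (h0 h).1
  tfae_have 5 → 2 := fun h => (h0 h).2.2
  tfae_have 5 → 3 := fun h => (h0 h).2.1
  tfae_have 3 → 1 := fun h f hf => h _ (essential_of_entire hf)
  tfae_have 1 → 4 := fun h P hP => h _ (entire_of_gm hP)
  tfae_have 4 → 5 := fun h P hP => h _ (gm_im hF.form hG hP)
  tfae_have 2 → 4 := by
    intro h P hP
    have h1 : (fun i => (P i).eval 1) ∈ SpGm Φ :=
      ⟨⟨hP.ne 1 one_ne_zero, hP.mem 1 one_ne_zero⟩, fun H _ hH => hH P hP 1 one_ne_zero⟩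
    have h2 := (gm_sub_alg hΦ h1).2 1 ⟨0, MvPolynomial.isHomogeneous_one _ _⟩
      fun K _ _ w y hw hy hgt => absurd (h K w y hw hy) hgt
    have h3 : val (fun i => (P i).eval 1) (1 : MvPolynomial (Fin (M + 1)) ℂ) = 1 := map_one _
    rw [h3] at h2
    exact one_ne_zero h2
  tfae_finish

end Pool.Agent.Y221.FQ
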