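import Pool.Agent.Y221.FQ.Top
import Pool.Agent.TH182.TC.Core
import Pool.Agent.Y221.BD.Cv

/-!
Maps from one-dimensional complex tori.
-/

set_option autoImplicit false
set_option maxHeartbeats 400000
set_option linter.overlappingInstances false
set_option linter.unusedSectionVars false

namespace Pool.Agent.Y221.FQ

open Pool.Agent.W602.GT Pool.Agent.Y221.BD
open Pool.Agent.TH182.TC (EllipticRigid TorusRigid no_rational)

/-- no images of the multiplicative group in the varieties without images of one-dimensional
complex tori -/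
theorem no_gm {M : ℕ} {μ : Type} {Φ : μ → MvPolynomial (Fin (M + 1)) ℂ} (hΦ : ∀ e, IsForm (Φ e))
    (hX : EllipticRigid Φ) (p : Fin (M + 1) → Polynomial ℂ) : ¬ GmCurve Φ p := by
  classical
  intro hP
  obtain ⟨g, hg⟩ : ∃ g : Polynomial ℂ, Ideal.span (Set.range p) = Ideal.span {g} :=
    (IsPrincipalIdealRing.principal (Ideal.span (Set.range p))).principal
  have hdvd : ∀ i, g ∣ p i := by
    intro i
    rw [← Ideal.mem_span_singleton, ← hg]
    exact Ideal.subset_span ⟨i, rfl⟩
  choose e he using hdvd
  have hg0 : g ≠ 0 := by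
    intro h0
    apply hP.ne 1 one_ne_zero
    funext i
    rw [he i, h0]
    simp
  obtain ⟨c, hc⟩ : ∃ c : Fin (M + 1) → Polynomial ℂ, ∑ i, c i * p i = g := by
    have h1 : g ∈ Ideal.span (Set.range p) := by
      rw [hg]
      exact Ideal.mem_span_singleton_self g
    exact Ideal.mem_span_range_iff_exists_fun.1 h1
  have hc1 : ∑ i, c i * e i = 1 := by
    apply mul_left_cancel₀ hg0
    rw [mul_one, Finset.mul_sum]
    conv_rhs => rw [← hc]
    refine Finset.sum_congr rfl fun i _ => ?_
    conv_rhs => rw [he i]
    ring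
  have hne : ∀ t, ∃ j, (e j).eval t ≠ 0 := by
    intro t
    by_contra hcon
    push Not at hcon
    have h1 := congrArg (Polynomial.eval t) hc1
    rw [Polynomial.eval_finsetSum, Polynomial.eval_one] at h1
    rw [Finset.sum_eq_zero fun i _ => by rw [Polynomial.eval_mul, hcon i, mul_zero]] at h1
    exact zero_ne_one h1
  have hmem : ∀ t i, MvPolynomial.eval (fun j => (e j).eval t) (Φ i) = 0 := by
    intro t i
    obtain ⟨d, hd⟩ := hΦ i
    have h0 : Polynomial.X * g ^ d * MvPolynomial.aeval e (Φ i) = 0 := by
      apply Polynomial.funext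
      intro t
      rw [Polynomial.eval_mul, Polynomial.eval_mul, Polynomial.eval_X, Polynomial.eval_pow,
        eval_poly, Polynomial.eval_zero]
      by_cases ht : t = 0
      · rw [ht, zero_mul, zero_mul]
      · have h1 := val_smul hd (g.eval t) (fun i => (e i).eval t)
        have h2 : (fun i => g.eval t * (e i).eval t) = fun i => (p i).eval t := by
          funext i
          rw [he i, Polynomial.eval_mul]
        rw [h2, hP.mem t ht i] at h1
        unfold Pool.Agent.W602.GT.val at h1
        rw [MvPolynomial.aeval_eq_eval] at h1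
        rw [mul_assoc]
        exact mul_eq_zero_of_right _ h1.symm
    have h1 := (mul_eq_zero.1 h0).resolve_left
      (mul_ne_zero Polynomial.X_ne_zero (pow_ne_zero _ hg0))
    rw [← eval_poly, h1, Polynomial.eval_zero]
  have key := no_rational hΦ hX e hne hmem
  obtain ⟨t1, t2, ht1, ht2, hli⟩ := hP.nonconst
  rw [LinearIndependent.pair_iff] at hli
  obtain ⟨k, hk⟩ := hne t2
  have hpt : ∀ t i, (p i).eval t = g.eval t * (e i).eval t := by
    intro t i
    rw [he i, Polynomial.eval_mul]
  have hgt : ∀ t, t ≠ 0 → g.eval t ≠ 0 := by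
    intro t ht h0
    apply hP.ne t ht
    funext i
    rw [hpt, h0, zero_mul]
    rfl
  have h1 := hli (g.eval t2 * (e k).eval t2) (-(g.eval t1 * (e k).eval t1)) (by
    funext i
    simp only [Pi.add_apply, Pi.smul_apply, smul_eq_mul, Pi.zero_apply]
    rw [hpt, hpt]
    linear_combination g.eval t1 * g.eval t2 * key t1 t2 i k)
  exact mul_ne_zero (hgt t2 ht2) hk h1.1

end Pool.Agent.Y221.FQ
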