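import Pool.Agent.Y221.FQ.Irr
import Pool.Agent.Y221.FQ.Top
import Pool.Agent.Y221.BD.Top

/-!
Components of the images of systems of high powers: general type and special sets.
-/

set_option autoImplicit false
set_option maxHeartbeats 400000
set_option linter.overlappingInstances false
set_option linter.unusedSectionVars false

open FF IntermediateField Filter

namespace Pool.Agent.Y221.FQ

open Pool.Agent.W602.GT Pool.Agent.Y221.BD
open Pool.Agent.TH466.QG (StronglyGeneral SubOf trdeg_alg)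
open Pool.Agent.W619.PQ (IsUniruled)

section gen

variable {k : Type} [Field k] [IsAlgClosed k] {M : ℕ} {μ : Type}
  {Φ : μ → MvPolynomial (Fin (M + 1)) k}

theorem varPts_cone (hΦ : ∀ e, IsForm (Φ e)) {L : Type} [Field L] [Algebra k L]
    {z : Fin (M + 1) → L} (hz : ∀ e, val z (Φ e) = 0) : VarPts k z ⊆ Cone Φ :=
  fun _ hx => ⟨hx.1, fun e => hx.2 _ (hΦ e) (hz e)⟩

/-- subvarieties which do not lie in a closed set -/
theorem not_sub (hΦ : ∀ e, IsForm (Φ e)) {T : Set (Fin (M + 1) → k)}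
    {P : MvPolynomial (Fin (M + 1)) k → Prop}
    (hT : ∀ x, x ∈ T ↔ x ∈ Cone Φ ∧ ∀ H, IsForm H → P H → val x H = 0) {L : Type} [Field L]
    [Algebra k L] {z : Fin (M + 1) → L} (hz0 : z ≠ 0) (hz : ∀ e, val z (Φ e) = 0) :
    ¬ VarPts k z ⊆ T ↔ ∃ H, IsForm H ∧ P H ∧ val z H ≠ 0 := by
  constructor
  · intro h
    by_contra hcon
    push Not at hcon
    exact h fun x hx => (hT x).2 ⟨varPts_cone hΦ hz hx, fun H hH hPH =>
      hx.2 H hH (hcon H hH hPH)⟩
  · rintro ⟨H, hH, hPH, hne⟩ hsub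
    obtain ⟨b, hb⟩ := Function.ne_iff.1 hz0
    obtain ⟨x, hx, hx0⟩ := specialise z (H * MvPolynomial.X b) (by
      rw [map_mul, MvPolynomial.aeval_X]
      exact mul_ne_zero hne hb)
    rw [map_mul, MvPolynomial.aeval_X] at hx
    have h1 : x ∈ VarPts k z :=
      ⟨fun h0 => right_ne_zero_of_mul hx (congrFun h0 b), fun g _ hg => hx0 g hg⟩
    exact left_ne_zero_of_mul hx (((hT x).1 (hsub h1)).2 H hH hPH)

/-- the generic point of an irreducible variety -/
theorem comp_of_irr {L : Type} [Field L] [Algebra k L] {z : Fin (M + 1) → L}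
    (hirr : Cone Φ ⊆ VarPts k z) : IsComponent Φ z := by
  refine ⟨1, ⟨0, MvPolynomial.isHomogeneous_one _ _⟩, ?_, fun x hx _ => hirr hx⟩
  have h1 : val z (1 : MvPolynomial (Fin (M + 1)) k) = 1 := map_one _
  rw [h1]
  exact one_ne_zero

end gen

section cx

variable {M : ℕ} {μ : Type} {Φ : μ → MvPolynomial (Fin (M + 1)) ℂ}

/-- pseudo-Brody hyperbolicity of the components -/
theorem brody_iff (hΦ : ∀ e, IsForm (Φ e)) {L : Type} [Field L] [Algebra ℂ L]
    {z : Fin (M + 1) → L} (hz0 : z ≠ 0) (hz : ∀ e, val z (Φ e) = 0) :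
    (¬ VarPts ℂ z ⊆ SpH Φ → PseudoBrody z) ∧
      (IsComponent Φ z → PseudoBrody z → ¬ VarPts ℂ z ⊆ SpH Φ) := by
  have hT := not_sub (k := ℂ) (T := SpH Φ) hΦ (fun x => Iff.rfl) hz0 hz
  refine ⟨fun h => ?_, fun hc h => hT.2 ?_⟩
  · obtain ⟨H, hH, hPH, hne⟩ := hT.1 h
    refine ⟨H, hH, hne, fun f hf t => ?_⟩
    have hE : Entire Φ fun t i => f i t := by
      refine ⟨hf.hol, fun t => ⟨?_, fun e => hf.mem _ (hΦ e) (hz e) t⟩, ?_⟩
      · obtain ⟨i, hi⟩ := hf.ne t
        exact fun h0 => hi (congrFun h0 i)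
      · obtain ⟨i, j, a, b, hab⟩ := hf.nonconst
        refine ⟨a, b, ?_⟩
        rw [LinearIndependent.pair_iff]
        intro c c' hcc
        have h1 := congrFun hcc i
        have h2 := congrFun hcc j
        simp only [Pi.add_apply, Pi.smul_apply, smul_eq_mul, Pi.zero_apply] at h1 h2
        have hd : f i a * f j b - f j a * f i b ≠ 0 := sub_ne_zero.2 hab
        constructor
        · have h3 : c * (f i a * f j b - f j a * f i b) = 0 := by
            linear_combination f j b * h1 - f i b * h2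
          exact (mul_eq_zero.1 h3).resolve_right hd
        · have h3 : c' * (f i a * f j b - f j a * f i b) = 0 := by
            linear_combination f i a * h2 - f j a * h1
          exact (mul_eq_zero.1 h3).resolve_right hd
    exact hPH _ hE t
  · obtain ⟨H0, hH0f, hH0z, hH0⟩ := hc
    obtain ⟨R, hR, hRz, hRE⟩ := h
    refine ⟨H0 * R, ?_, fun f hf t => ?_, ?_⟩
    · obtain ⟨a, ha⟩ := hH0f
      obtain ⟨b, hb⟩ := hR
      exact ⟨a + b, ha.mul hb⟩
    · by_contra hne
      have hmul : ∀ (x : Fin (M + 1) → ℂ) (A B : MvPolynomial (Fin (M + 1)) ℂ),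
          val x (A * B) = val x A * val x B := fun x A B => map_mul _ _ _
      rw [hmul] at hne
      have h1 := left_ne_zero_of_mul hne
      have h2 := right_ne_zero_of_mul hne
      have hdiff : ∀ A : MvPolynomial (Fin (M + 1)) ℂ, Differentiable ℂ fun t => val (f t) A := by
        intro A
        unfold Pool.Agent.W602.GT.val
        simp only [MvPolynomial.aeval_def, MvPolynomial.eval₂_eq']
        refine Differentiable.fun_sum fun α _ => Differentiable.mul (differentiable_const _) ?_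
        exact Differentiable.fun_finsetProd fun i _ => (hf.hol i).pow _
      have hE : EntireCurve z fun i t => f t i := by
        refine ⟨hf.hol, fun t => Function.ne_iff.1 (hf.mem t).1, fun g hg hgz s => ?_, ?_⟩
        · have h3 : ∀ᶠ s in nhds t, val (f s) H0 ≠ 0 :=
            (hdiff H0).continuous.continuousAt.eventually_ne h1
          have h4 : ∀ᶠ s in nhds t, val (f s) g = 0 := by
            filter_upwards [h3] with s hs
            exact (hH0 _ (hf.mem s) hs).2 g hg hgz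
          have h5 : AnalyticOnNhd ℂ (fun s => val (f s) g) Set.univ :=
            (hdiff g).differentiableOn.analyticOnNhd isOpen_univ
          have h6 := h5.eqOn_zero_of_preconnected_of_eventuallyEq_zero isPreconnected_univ
            (Set.mem_univ t) h4 (Set.mem_univ s)
          have h7 : MvPolynomial.eval (fun i => f s i) g = val (f s) g := by
            unfold Pool.Agent.W602.GT.val
            rw [MvPolynomial.aeval_eq_eval]
          rw [h7]
          exact h6
        · obtain ⟨a, b, hab⟩ := hf.nonconst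
          by_contra hcon
          push Not at hcon
          obtain ⟨i, hi⟩ := Function.ne_iff.1 (hf.mem a).1
          rw [LinearIndependent.pair_iff] at hab
          have h3 := hab (-(f b i)) (f a i) (by
            funext j
            simp only [Pi.add_apply, Pi.smul_apply, smul_eq_mul, Pi.zero_apply]
            linear_combination hcon i j a b)
          exact hi h3.2
      apply h2
      have h3 := hRE _ hE t
      rw [← h3]
      unfold Pool.Agent.W602.GT.val
      rw [MvPolynomial.aeval_eq_eval]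
    · have h1 : val z (H0 * R) = val z H0 * val z R := map_mul _ _ _
      rw [h1]
      exact mul_ne_zero hH0z hRz

/-- subvarieties outside the algebraic special set -/
theorem strong_of (hΦ : ∀ e, IsForm (Φ e)) {L : Type} [Field L] [Algebra ℂ L] {w : ℕ}
    {z : Fin (M + 1) → L} (hw : 1 ≤ w) (hz : SubVar Φ L w z) (h : ¬ VarPts ℂ z ⊆ SpAlg Φ) :
    GeneralType ℂ L w ∧ StronglyGeneral ℂ z := by
  obtain ⟨H, hH, hPH, hne⟩ := (not_sub (k := ℂ) (T := SpAlg Φ) hΦ (fun x => Iff.rfl) hz.ne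
    hz.mem).1 h
  constructor
  · by_contra hgt
    exact hne (hPH L w z hw hz hgt)
  · refine ⟨H, hH, hne, fun E _ _ w' z' hz' hne' hw' htr => ?_⟩
    by_contra hgt
    exact hne' (hPH E w' z' hw' ⟨hz'.ne, fun e => hz'.spec _ (hΦ e) (hz.mem e), hz'.gen, htr⟩ hgt)

end cx

section main

variable {k : Type} [Field k] [IsAlgClosed k] {m M : ℕ} {κ μ : Type}
  {Ψ : κ → MvPolynomial (Fin (m + 1)) k} {Φ : μ → MvPolynomial (Fin (M + 1)) k}
  {G : Fin (M + 1) → MvPolynomial (Fin (m + 1)) k}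

/-- the lifted point generates -/
theorem lift_gen {K E : Type} [Field K] [Field E]
    [Algebra k K] [Algebra k E] [Algebra K E] [IsScalarTower k K E] {z : Fin (M + 1) → K}
    (hgen : coords k z = ⊤) {u : Fin (m + 1) → E} {i0 : Fin (m + 1)} {c : E} (hu0 : u i0 = 1)
    (hc0 : c ≠ 0) (hcz : ∀ j, algebraMap K E (z j) = c * im G u j)
    (htop : IntermediateField.adjoin K (Set.range u) = ⊤) : coords k u = ⊤ := by
  obtain ⟨C, hC⟩ : ∃ C, C = coords k u := ⟨_, rfl⟩
  rw [← hC]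
  have hu : ∀ i, u i ∈ C := by
    intro i
    rw [hC]
    refine IntermediateField.subset_adjoin k _ ⟨i, i0, ?_, ?_⟩
    · rw [hu0]
      exact one_ne_zero
    · rw [hu0, div_one]
  have hval : ∀ T : MvPolynomial (Fin (m + 1)) k, val u T ∈ C := by
    intro T
    unfold Pool.Agent.W602.GT.val
    rw [MvPolynomial.aeval_def, MvPolynomial.eval₂_eq']
    exact sum_mem fun α _ => mul_mem (C.algebraMap_mem _)
      (prod_mem fun i _ => _root_.pow_mem (hu i) _)
  have hK : ∀ x : K, algebraMap K E x ∈ C := by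
    intro x
    have h1 : coords k z ≤ C.comap (IsScalarTower.toAlgHom k K E) := by
      unfold Pool.Agent.W602.GT.coords
      rw [IntermediateField.adjoin_le_iff]
      rintro _ ⟨i, j, hj, rfl⟩
      change algebraMap K E (z i / z j) ∈ C
      have h2 : algebraMap K E (z i / z j) = im G u i / im G u j := by
        rw [map_div₀, hcz, hcz, mul_div_mul_left _ _ hc0]
      rw [h2]
      exact div_mem (hval _) (hval _)
    exact h1 (by rw [hgen]; exact IntermediateField.mem_top)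
  have hle : IntermediateField.adjoin K (Set.range u) ≤ C.toSubfield.toIntermediateField hK := by
    rw [IntermediateField.adjoin_le_iff]
    rintro _ ⟨i, rfl⟩
    exact hu i
  rw [htop] at hle
  rw [_root_.eq_top_iff]
  intro x _
  exact hle (IntermediateField.mem_top (F := K) (x := x))

end main

section top

variable {n M : ℕ} {ι μ : Type} {F : ι → MvPolynomial (Fin (n + 1)) ℂ}
  {Φ : μ → MvPolynomial (Fin (M + 1)) ℂ} {G : Fin (M + 1) → MvPolynomial (Fin (n + 1)) ℂ}

/-- **Components of the images.** -/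
theorem gen_iff [Finite ι] (hG : Mor F Φ G) (hon : Onto F Φ G) {r s N : ℕ}
    (hfib : FibresLe F G r) (hF : HighPowers s N F)
    (hN : n * (4 * 10 ^ s * (r + 1) ^ 7) ≤ N) {L : Type} [Field L] [Algebra ℂ L] {w : ℕ}
    {z : Fin (M + 1) → L} (hw : 1 ≤ w) (hz : SubVar Φ L w z) (hc : IsComponent Φ z) :
    (GeneralType ℂ L w ↔ PseudoBrody z) ∧ (StronglyGeneral ℂ z ↔ PseudoBrody z) ∧
      (¬ IsUniruled ℂ L w ↔ PseudoBrody z) := by
  obtain ⟨E, i1, i2, i3, i4, i5, u, i0, c, hrk, hu0, huF, hc0, hcz, htop⟩ :=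
    lift_point hF.form hG hon hfib hz.ne hz.mem
  have hi0 : u i0 ≠ 0 := by
    rw [hu0]
    exact one_ne_zero
  have hu : u ≠ 0 := fun h0 => hi0 (congrFun h0 i0)
  have hgen : coords ℂ u = ⊤ := lift_gen hz.gen hu0 hc0 hcz htop
  have htr : Algebra.trdeg ℂ E = w := by rw [trdeg_alg (E := L), hz.dim]
  have hcu : IsComponent F u := comp_lift hF.form hG hz.dim hc htr hi0 hgen huF hcz
  have hwn : w ≤ n := by
    refine Pool.Agent.W602.GT.dim_le (y := u) hu ?_ htr
    rw [hgen]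
    infer_instance
  exact ggl_iff hF hw ((Nat.mul_le_mul_right _ hwn).trans hN) ⟨hu, huF, hgen, htr⟩ hcu hrk hz.ne
    hz.gen

/-- **The equivalences for the components.** -/
theorem gen_tfae [Finite ι] (hΦ : ∀ e, IsForm (Φ e)) (hG : Mor F Φ G) (hon : Onto F Φ G)
    {r s N : ℕ} (hfib : FibresLe F G r) (hF : HighPowers s N F) (hn : 1 ≤ n)
    (hN : n * (4 * 10 ^ s * (r + 1) ^ 7) ≤ N) {L : Type} [Field L] [Algebra ℂ L] {w : ℕ}
    {z : Fin (M + 1) → L} (hw : 1 ≤ w) (hz : SubVar Φ L w z) :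
    (¬ VarPts ℂ z ⊆ im G '' SpGm F → GeneralType ℂ L w ∧ StronglyGeneral ℂ z ∧ PseudoBrody z) ∧
    (IsComponent Φ z → [GeneralType ℂ L w, StronglyGeneral ℂ z, PseudoBrody z,
      ¬ IsUniruled ℂ L w, ¬ VarPts ℂ z ⊆ SpAlg Φ, ¬ VarPts ℂ z ⊆ SpGm Φ, ¬ VarPts ℂ z ⊆ SpH Φ,
      ¬ VarPts ℂ z ⊆ SpP Φ, ¬ VarPts ℂ z ⊆ im G '' SpGm F].TFAE) := by
  obtain ⟨h1, h2, h3, h4⟩ := special_im hΦ hG hon hfib hF hn hN
  have h0 : ¬ VarPts ℂ z ⊆ im G '' SpGm F →
      GeneralType ℂ L w ∧ StronglyGeneral ℂ z ∧ PseudoBrody z := by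
    intro h
    rw [← h4] at h
    obtain ⟨h5, h6⟩ := strong_of hΦ hw hz (by rw [h3]; exact h)
    exact ⟨h5, h6, (brody_iff hΦ hz.ne hz.mem).1 (by rw [h1]; exact h)⟩
  refine ⟨h0, fun hc => ?_⟩
  obtain ⟨h5, h6, h7⟩ := gen_iff hG hon hfib hF hN hw hz hc
  tfae_have 1 ↔ 3 := h5
  tfae_have 2 ↔ 3 := h6
  tfae_have 4 ↔ 3 := h7
  tfae_have 3 → 7 := (brody_iff hΦ hz.ne hz.mem).2 hc
  tfae_have 7 → 3 := (brody_iff hΦ hz.ne hz.mem).1
  tfae_have 7 ↔ 6 := by rw [h1]
  tfae_have 8 ↔ 6 := by rw [h2]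
  tfae_have 5 ↔ 6 := by rw [h3]
  tfae_have 6 ↔ 9 := by rw [h4]
  tfae_finish

/-- **Subvarieties of the images of covers.** -/
theorem gen_cover {m : ℕ} {κ : Type} {Ψ : κ → MvPolynomial (Fin (m + 1)) ℂ}
    {B : Fin (n + 1) → MvPolynomial (Fin (m + 1)) ℂ}
    {G' : Fin (M + 1) → MvPolynomial (Fin (m + 1)) ℂ} (hΦ : ∀ e, IsForm (Φ e))
    (hΨ : ∀ e, IsForm (Ψ e)) (hB : Mor Ψ F B) (hG : Mor Ψ Φ G') (hon : Onto Ψ Φ G')
    {r s N : ℕ} (hfib : FibresLe Ψ G' r) (hF : HighPowers s N F) (hn : 1 ≤ n)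
    (hN : n * (4 * 10 ^ s * (r + 1) ^ 7) ≤ N) :
    (∀ f, Entire Φ f → ∀ t, f t ∈ CoverGm Ψ F B G') ∧
    ∀ (L : Type) [Field L] [Algebra ℂ L] (w : ℕ) (z : Fin (M + 1) → L), 1 ≤ w →
      SubVar Φ L w z → ¬ VarPts ℂ z ⊆ CoverGm Ψ F B G' →
        GeneralType ℂ L w ∧ StronglyGeneral ℂ z ∧ PseudoBrody z := by
  obtain ⟨h1, -, h3⟩ := special_cover hΨ hB hG hon hfib hF hn hN
  refine ⟨fun f hf t => h1 ⟨hf.mem t, fun H _ hH => hH f hf t⟩, ?_⟩
  intro L _ _ w z hw hz h
  obtain ⟨h5, h6⟩ := strong_of hΦ hw hz fun h4 => h (h4.trans h3)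
  exact ⟨h5, h6, (brody_iff hΦ hz.ne hz.mem).1 fun h4 => h (h4.trans h1)⟩

end top

end Pool.Agent.Y221.FQ
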