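import Pool.Agent.Y221.FQ.Top
import Pool.Agent.TH182.TC.Core
import Pool.Agent.Y221.BD.Cv

/-!
The closure of the union of the images of one-dimensional complex tori.
-/

set_option autoImplicit false
set_option maxHeartbeats 400000
set_option linter.overlappingInstances false
set_option linter.unusedSectionVars false

open MvPolynomial Filter Topology Set
open scoped LinearAlgebra.Projectivization PeriodPair

namespace Pool.Agent.Y221.FQ

open Pool.Agent.W602.GT Pool.Agent.Y221.BD
open Pool.Agent.TH182.TC (PS OnX Holo HoloAt hom hom_eval hom_zero infinite_range onX_mk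
  mk_eq_mk_iff_minors eval_smul_of_homog)

variable {M : ℕ} {μ : Type}

/-- `g` is a nonconstant holomorphic map from the one-dimensional complex torus
`ℂ / (ℤ w1 + ℤ w2)` to the projective variety `{Φ = 0}`. -/
structure TorusCurve (w1 w2 : ℂ) (Φ : μ → MvPolynomial (Fin (M + 1)) ℂ) (g : ℂ → PS M) : Prop where
  holo : Holo g
  mem : ∀ z, OnX Φ (g z)
  per1 : ∀ z, g (z + w1) = g z
  per2 : ∀ z, g (z + w2) = g z
  nonconst : ∃ z z', g z ≠ g z'

/-- The closure in `{Φ = 0}` of the union of the images of the nonconstant holomorphic maps from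
the one-dimensional complex torus `ℂ / (ℤ w1 + ℤ w2)` (as a cone). -/
def SpE (w1 w2 : ℂ) (Φ : μ → MvPolynomial (Fin (M + 1)) ℂ) : Set (Fin (M + 1) → ℂ) :=
  {x | x ∈ Cone Φ ∧ ∀ H : MvPolynomial (Fin (M + 1)) ℂ, IsForm H →
    (∀ g, TorusCurve w1 w2 Φ g → ∀ z, val (g z).rep H = 0) → val x H = 0}

/-- rational curves are dominated by tori -/
theorem exists_torus {w1 w2 : ℂ} (hw : LinearIndependent ℝ ![w1, w2])
    {Φ : μ → MvPolynomial (Fin (M + 1)) ℂ} (hF : ∀ i, ∃ d, (Φ i).IsHomogeneous d)
    (P : Fin (M + 1) → Polynomial ℂ) (hP : ∀ t, ∃ j, (P j).eval t ≠ 0)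
    (hPF : ∀ t i, eval (fun j => (P j).eval t) (Φ i) = 0)
    (hnc : ∃ s t j k, (P j).eval s * (P k).eval t ≠ (P k).eval s * (P j).eval t) :
    ∃ (g : ℂ → PS M) (S : Set ℂ), TorusCurve w1 w2 Φ g ∧ S.Infinite ∧
      ∀ a ∈ S, ∃ z, ∃ h : (fun j => (P j).eval a) ≠ 0,
        g z = Projectivization.mk ℂ (fun j => (P j).eval a) h := by
  classical
  let L : PeriodPair := ⟨w1, w2, hw⟩
  set d := Finset.univ.sup fun j => (P j).natDegree with hd
  have hdj : ∀ j, (P j).natDegree ≤ d := fun j =>
    Finset.le_sup (f := fun j => (P j).natDegree) (Finset.mem_univ j)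
  let H : ℂ → ℂ → Fin (M + 1) → ℂ := fun s t j => hom d (P j) s t
  have hH : ∀ s t, s ≠ 0 → H s t = s ^ d • fun j => (P j).eval (t / s) := by
    intro s t hs
    funext j
    exact hom_eval (hdj j) hs t
  have hHne : ∀ s t, s ≠ 0 → H s t ≠ 0 := by
    intro s t hs h0
    obtain ⟨j, hj⟩ := hP (t / s)
    have h1 := congrFun h0 j
    rw [hH s t hs] at h1
    exact (mul_ne_zero (pow_ne_zero d hs) hj) h1
  have hlead : ∃ j, (P j).coeff d ≠ 0 := by
    obtain ⟨j, -, hj⟩ := Finset.exists_mem_eq_sup (Finset.univ : Finset (Fin (M + 1)))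
      Finset.univ_nonempty (fun j => (P j).natDegree)
    rw [← hd] at hj
    by_cases hd0 : d = 0
    · obtain ⟨l, hl⟩ := hP 0
      refine ⟨l, ?_⟩
      have h1 : (P l).natDegree = 0 := Nat.le_zero.mp (hd0 ▸ hdj l)
      rw [hd0]
      rw [Polynomial.eq_C_of_natDegree_eq_zero h1, Polynomial.eval_C] at hl
      exact hl
    · refine ⟨j, ?_⟩
      rw [hj]
      intro h
      rw [Polynomial.coeff_natDegree, Polynomial.leadingCoeff_eq_zero] at h
      rw [h, Polynomial.natDegree_zero] at hj
      exact hd0 hj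
  have hH0 : ∀ t, t ≠ 0 → H 0 t ≠ 0 := by
    intro t ht h0
    obtain ⟨j, hj⟩ := hlead
    have h1 := congrFun h0 j
    change hom d (P j) 0 t = 0 at h1
    rw [hom_zero] at h1
    exact (mul_ne_zero hj (pow_ne_zero d ht)) h1
  have hcont : ∀ t, Continuous fun s => H s t := by
    intro t
    refine continuous_pi fun j => ?_
    change Continuous fun s => ∑ i ∈ Finset.range (d + 1), (P j).coeff i * t ^ i * s ^ (d - i)
    fun_prop
  have hHF : ∀ s t i, eval (H s t) (Φ i) = 0 := by
    intro s t i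
    obtain ⟨e, he⟩ := hF i
    have h1 : ∀ s, s ≠ 0 → eval (H s t) (Φ i) = 0 := by
      intro s hs
      rw [hH s t hs, eval_smul_of_homog he, hPF, mul_zero]
    have h2 : Continuous fun s => eval (H s t) (Φ i) :=
      (MvPolynomial.continuous_eval (Φ i)).comp (hcont t)
    have h3 : (fun s => eval (H s t) (Φ i)) = fun _ => 0 :=
      h2.ext_on (dense_compl_singleton (0 : ℂ)) continuous_const (fun s hs => h1 s hs)
    exact congrFun h3 s
  let v : ℂ → Fin (M + 1) → ℂ := fun z => if z ∈ L.lattice then H 0 1 else H 1 (℘[L] z)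
  have hv : ∀ z, v z ≠ 0 := by
    intro z
    simp only [v]
    split_ifs
    · exact hH0 1 one_ne_zero
    · exact hHne _ _ one_ne_zero
  let g : ℂ → PS M := fun z => Projectivization.mk ℂ (v z) (hv z)
  have hgX : ∀ z, OnX Φ (g z) := by
    intro z
    rw [onX_mk hF]
    intro i
    simp only [v]
    split_ifs <;> exact hHF _ _ _
  have hHan : ∀ (a b : ℂ → ℂ) (z : ℂ), AnalyticAt ℂ a z → AnalyticAt ℂ b z →
      AnalyticAt ℂ (fun w => H (a w) (b w)) z := by
    intro a b z ha hb
    rw [analyticAt_pi_iff]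
    intro j
    change AnalyticAt ℂ (fun w => ∑ i ∈ Finset.range (d + 1),
      (P j).coeff i * b w ^ i * a w ^ (d - i)) z
    apply Finset.analyticAt_fun_sum
    intro i _
    exact (analyticAt_const.fun_mul (hb.fun_pow i)).fun_mul (ha.fun_pow _)
  have hgh : Holo g := by
    intro z
    by_cases hz : z ∈ L.lattice
    · let a : ℂ → ℂ := fun w => (w - z) ^ 2
      let c : ℂ → ℂ := fun w => (w - z) ^ 2 * ℘[L - z] w + 1 - (w - z) ^ 2 / z ^ 2
      have ha : AnalyticAt ℂ a z := by
        change AnalyticAt ℂ (fun w => (w - z) ^ 2) z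
        fun_prop
      have hc : AnalyticAt ℂ c z := by
        have h1 : AnalyticAt ℂ ℘[L - z] z := L.analyticAt_weierstrassPExcept z
        have h2 : AnalyticAt ℂ (fun w : ℂ => (w - z) ^ 2 / z ^ 2) z := by
          have : AnalyticAt ℂ (fun w : ℂ => (w - z) ^ 2 * (z ^ 2)⁻¹) z := by fun_prop
          simpa only [div_eq_mul_inv] using this
        change AnalyticAt ℂ (fun w => (w - z) ^ 2 * ℘[L - z] w + 1 - (w - z) ^ 2 / z ^ 2) z
        fun_prop
      refine ⟨fun w => H (a w) (c w), hHan a c z ha hc, ?_⟩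
      filter_upwards [L.compl_lattice_sdiff_singleton_mem_nhds z] with w hw
      by_cases hwz : w = z
      · subst hwz
        have h1 : a w = 0 := by simp [a]
        have h2 : c w = 1 := by simp [c]
        have h3 : H (a w) (c w) = v w := by
          rw [h1, h2]
          simp only [v, if_pos hz]
        refine ⟨by rw [h3]; exact hv w, ?_⟩
        simp only [g, h3]
      · have hwL : w ∉ L.lattice := fun h => hw ⟨h, hwz⟩
        have h1 : a w ≠ 0 := pow_ne_zero 2 (sub_ne_zero.mpr hwz)
        have h2 : c w = a w * ℘[L] w := by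
          have := L.ite_eq_one_sub_sq_mul_weierstrassP z hz w
          rw [if_neg hwz] at this
          exact this.symm
        have h3 : H (a w) (c w) ≠ 0 := hHne _ _ h1
        refine ⟨h3, ?_⟩
        simp only [g]
        rw [Projectivization.mk_eq_mk_iff']
        refine ⟨(a w ^ d)⁻¹, ?_⟩
        simp only [v, if_neg hwL]
        rw [hH _ _ h1, hH _ _ one_ne_zero, h2, smul_smul, inv_mul_cancel₀ (pow_ne_zero d h1),
          one_pow, div_one, mul_div_cancel_left₀ _ h1]
    · refine ⟨fun w => H 1 (℘[L] w), hHan _ _ z analyticAt_const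
        (L.analyticOnNhd_weierstrassP z hz), ?_⟩
      have hopen : ((L.lattice : Set ℂ)ᶜ) ∈ 𝓝 z := L.isClosed_lattice.isOpen_compl.mem_nhds hz
      filter_upwards [hopen] with w hw
      have h3 : v w = H 1 (℘[L] w) := if_neg hw
      refine ⟨hHne _ _ one_ne_zero, ?_⟩
      simp only [g, h3]
  have hper : ∀ l ∈ L.lattice, ∀ z, g (z + l) = g z := by
    intro l hl z
    have h1 : v (z + l) = v z := by
      simp only [v]
      have h2 : z + l ∈ L.lattice ↔ z ∈ L.lattice := by
        constructor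
        · intro h
          have := L.lattice.sub_mem h hl
          rwa [add_sub_cancel_right] at this
        · intro h
          exact L.lattice.add_mem h hl
      simp only [h2]
      rw [L.weierstrassP_add_coe z ⟨l, hl⟩]
    simp only [g, h1]
  have h3 : ∀ z, z ∈ (L.lattice : Set ℂ)ᶜ → v z = fun j => (P j).eval (℘[L] z) := by
    intro z hz
    have h4 : v z = H 1 (℘[L] z) := if_neg hz
    rw [h4, hH _ _ one_ne_zero, one_pow, one_smul, div_one]
  have hSinf : (℘[L] '' (L.lattice : Set ℂ)ᶜ).Infinite := infinite_range L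
  refine ⟨g, ℘[L] '' (L.lattice : Set ℂ)ᶜ, ⟨hgh, hgX, hper _ L.ω₁_mem_lattice,
    hper _ L.ω₂_mem_lattice, ?_⟩, hSinf, ?_⟩
  · by_contra hconst
    push Not at hconst
    have hSP : ∀ a ∈ ℘[L] '' (L.lattice : Set ℂ)ᶜ, ∀ b ∈ ℘[L] '' (L.lattice : Set ℂ)ᶜ, ∀ j k,
        (P j).eval a * (P k).eval b = (P k).eval a * (P j).eval b := by
      rintro _ ⟨z, hz, rfl⟩ _ ⟨w, hw, rfl⟩ j k
      have h1 := hconst z w
      simp only [g] at h1
      rw [mk_eq_mk_iff_minors] at h1
      have h2 := h1 j k
      rw [h3 z hz, h3 w hw] at h2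
      exact h2
    obtain ⟨s, t, j, k, hst⟩ := hnc
    have hpoly : ∀ a ∈ ℘[L] '' (L.lattice : Set ℂ)ᶜ,
        Polynomial.C ((P j).eval a) * P k = Polynomial.C ((P k).eval a) * P j := by
      intro a ha
      apply Polynomial.eq_of_infinite_eval_eq
      refine hSinf.mono fun b hb => ?_
      simp only [Set.mem_ofPred_eq, Polynomial.eval_mul, Polynomial.eval_C]
      exact hSP a ha b hb j k
    have h5 : Polynomial.C ((P k).eval t) * P j = Polynomial.C ((P j).eval t) * P k := by
      apply Polynomial.eq_of_infinite_eval_eq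
      refine hSinf.mono fun a ha => ?_
      simp only [Set.mem_ofPred_eq, Polynomial.eval_mul, Polynomial.eval_C]
      have := congrArg (Polynomial.eval t) (hpoly a ha)
      simp only [Polynomial.eval_mul, Polynomial.eval_C] at this
      linear_combination this
    have h6 := congrArg (Polynomial.eval s) h5
    simp only [Polynomial.eval_mul, Polynomial.eval_C] at h6
    exact hst (by linear_combination h6)
  · rintro _ ⟨z, hz, rfl⟩
    have h7 := h3 z hz
    refine ⟨z, ?_, ?_⟩
    · rw [← h7]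
      exact hv z
    · simp only [g]
      congr 1

/-- the values of the homogeneous coordinates of the points of tori -/
theorem val_rep {H : MvPolynomial (Fin (M + 1)) ℂ} (hH : IsForm H) {v : Fin (M + 1) → ℂ}
    (hv : v ≠ 0) (h : val (Projectivization.mk ℂ v hv).rep H = 0) : val v H = 0 := by
  obtain ⟨a, ha⟩ := Projectivization.exists_smul_eq_mk_rep ℂ v hv
  have ha' : (Projectivization.mk ℂ v hv).rep = (a : ℂ) • v := ha.symm
  obtain ⟨d, hd⟩ := hH
  unfold Pool.Agent.W602.GT.val at h ⊢
  rw [MvPolynomial.aeval_eq_eval] at h ⊢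
  have h1 := eval_smul_of_homog hd (a : ℂ) v
  rw [ha'] at h
  exact (mul_eq_zero.1 (h1.symm.trans h)).resolve_left (pow_ne_zero _ a.ne_zero)

/-- **Images of the multiplicative group and of tori.** -/
theorem gm_sub_e {w1 w2 : ℂ} (hw : LinearIndependent ℝ ![w1, w2])
    {Φ : μ → MvPolynomial (Fin (M + 1)) ℂ} (hΦ : ∀ e, IsForm (Φ e)) :
    SpGm Φ ⊆ SpE w1 w2 Φ := by
  classical
  rintro x ⟨hx, h⟩
  refine ⟨hx, fun H hH hE => h H hH fun p hP t ht => ?_⟩
  obtain ⟨g, hg⟩ : ∃ g : Polynomial ℂ, Ideal.span (Set.range p) = Ideal.span {g} :=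
    (IsPrincipalIdealRing.principal (Ideal.span (Set.range p))).principal
  have hdvd : ∀ i, g ∣ p i := by
    intro i
    rw [← Ideal.mem_span_singleton, ← hg]
    exact Ideal.subset_span ⟨i, rfl⟩
  choose e he using hdvd
  have hg0 : g ≠ 0 := by
    intro h0
    apply hP.ne 1 one_ne_zero
    funext i
    rw [he i, h0]
    simp
  obtain ⟨c, hc⟩ : ∃ c : Fin (M + 1) → Polynomial ℂ, ∑ i, c i * p i = g := by
    have h1 : g ∈ Ideal.span (Set.range p) := by
      rw [hg]
      exact Ideal.mem_span_singleton_self g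
    exact Ideal.mem_span_range_iff_exists_fun.1 h1
  have hc1 : ∑ i, c i * e i = 1 := by
    apply mul_left_cancel₀ hg0
    rw [mul_one, Finset.mul_sum]
    conv_rhs => rw [← hc]
    refine Finset.sum_congr rfl fun i _ => ?_
    conv_rhs => rw [he i]
    ring
  have hne : ∀ t, ∃ j, (e j).eval t ≠ 0 := by
    intro t
    by_contra hcon
    push Not at hcon
    have h1 := congrArg (Polynomial.eval t) hc1
    rw [Polynomial.eval_finsetSum, Polynomial.eval_one] at h1
    rw [Finset.sum_eq_zero fun i _ => by rw [Polynomial.eval_mul, hcon i, mul_zero]] at h1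
    exact zero_ne_one h1
  have hpt : ∀ t i, (p i).eval t = g.eval t * (e i).eval t := by
    intro t i
    rw [he i, Polynomial.eval_mul]
  have hgt : ∀ t, t ≠ 0 → g.eval t ≠ 0 := by
    intro t ht h0
    apply hP.ne t ht
    funext i
    rw [hpt, h0, zero_mul]
    rfl
  have hmem : ∀ t i, MvPolynomial.eval (fun j => (e j).eval t) (Φ i) = 0 := by
    intro t i
    obtain ⟨d, hd⟩ := hΦ i
    have h0 : Polynomial.X * g ^ d * MvPolynomial.aeval e (Φ i) = 0 := by
      apply Polynomial.funext
      intro t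
      rw [Polynomial.eval_mul, Polynomial.eval_mul, Polynomial.eval_X, Polynomial.eval_pow,
        eval_poly, Polynomial.eval_zero]
      by_cases ht : t = 0
      · rw [ht, zero_mul, zero_mul]
      · have h1 := val_smul hd (g.eval t) (fun i => (e i).eval t)
        have h2 : (fun i => g.eval t * (e i).eval t) = fun i => (p i).eval t := by
          funext i
          rw [he i, Polynomial.eval_mul]
        rw [h2, hP.mem t ht i] at h1
        unfold Pool.Agent.W602.GT.val at h1
        rw [MvPolynomial.aeval_eq_eval] at h1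
        rw [mul_assoc]
        exact mul_eq_zero_of_right _ h1.symm
    have h1 := (mul_eq_zero.1 h0).resolve_left
      (mul_ne_zero Polynomial.X_ne_zero (pow_ne_zero _ hg0))
    rw [← eval_poly, h1, Polynomial.eval_zero]
  have hnc : ∃ s t j k, (e j).eval s * (e k).eval t ≠ (e k).eval s * (e j).eval t := by
    by_contra key
    push Not at key
    obtain ⟨t1, t2, ht1, ht2, hli⟩ := hP.nonconst
    rw [LinearIndependent.pair_iff] at hli
    obtain ⟨k, hk⟩ := hne t2
    have h1 := hli (g.eval t2 * (e k).eval t2) (-(g.eval t1 * (e k).eval t1)) (by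
      funext i
      simp only [Pi.add_apply, Pi.smul_apply, smul_eq_mul, Pi.zero_apply]
      rw [hpt, hpt]
      linear_combination g.eval t1 * g.eval t2 * key t1 t2 i k)
    exact mul_ne_zero (hgt t2 ht2) hk h1.1
  obtain ⟨γ, S, hγ, hS, hSγ⟩ := exists_torus hw hΦ e hne hmem hnc
  have hz : MvPolynomial.aeval e H = 0 := by
    apply Polynomial.eq_of_infinite_eval_eq
    refine hS.mono fun a ha => ?_
    obtain ⟨z, hz, hγz⟩ := hSγ a ha
    simp only [Set.mem_ofPred_eq, Polynomial.eval_zero]
    rw [eval_poly]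
    have h1 := hE _ hγ z
    rw [hγz] at h1
    have h2 := val_rep hH hz h1
    unfold Pool.Agent.W602.GT.val at h2
    rw [MvPolynomial.aeval_eq_eval] at h2
    exact h2
  obtain ⟨d, hd⟩ := hH
  have h1 := val_smul hd (g.eval t) (fun i => (e i).eval t)
  have h2 : (fun i => g.eval t * (e i).eval t) = fun i => (p i).eval t := by
    funext i
    rw [hpt]
  rw [h2] at h1
  rw [h1]
  have h3 : val (fun i => (e i).eval t) H = 0 := by
    unfold Pool.Agent.W602.GT.val
    rw [MvPolynomial.aeval_eq_eval]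
    change MvPolynomial.eval (fun i => (e i).eval t) H = 0
    rw [← eval_poly, hz, Polynomial.eval_zero]
  rw [h3, mul_zero]

theorem e_empty {w1 w2 : ℂ} {Φ : μ → MvPolynomial (Fin (M + 1)) ℂ}
    (h : ∀ g, ¬ TorusCurve w1 w2 Φ g) : SpE w1 w2 Φ = ∅ := by
  rw [Set.eq_empty_iff_forall_notMem]
  rintro x ⟨-, hx⟩
  have h1 := hx 1 ⟨0, MvPolynomial.isHomogeneous_one _ _⟩ fun g hg => absurd hg (h g)
  have h2 : val x (1 : MvPolynomial (Fin (M + 1)) ℂ) = 1 := map_one _
  rw [h2] at h1
  exact one_ne_zero h1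

theorem no_gm_of_e {w1 w2 : ℂ} (hw : LinearIndependent ℝ ![w1, w2])
    {Φ : μ → MvPolynomial (Fin (M + 1)) ℂ} (hΦ : ∀ e, IsForm (Φ e))
    (h : ∀ g, ¬ TorusCurve w1 w2 Φ g) (P : Fin (M + 1) → Polynomial ℂ) : ¬ GmCurve Φ P := by
  intro hP
  have h1 : (fun i => (P i).eval 1) ∈ SpGm Φ :=
    ⟨⟨hP.ne 1 one_ne_zero, hP.mem 1 one_ne_zero⟩, fun H _ hH => hH P hP 1 one_ne_zero⟩
  have h2 := gm_sub_e hw hΦ h1
  rw [e_empty h] at h2
  exact h2

end Pool.Agent.Y221.FQ
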