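import Pool.Agent.Y221.FQ.Crv
import Pool.Agent.Y221.PD.Main

/-!
Punctured discs in the images of finite morphisms.
-/

set_option autoImplicit false
set_option maxHeartbeats 400000
set_option linter.overlappingInstances false
set_option linter.unusedSectionVars false

namespace Pool.Agent.Y221.FQ

open Pool.Agent.W602.GT Pool.Agent.W603.BP Filter Metric Topology
open Pool.Agent.Y221.AP
open Pool.Agent.Y221.AB (NB one_le_NB)
open Pool.Agent.Y221.PD (val_cl alg_coords)

variable {m n M : ℕ} {ι κ μ : Type}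
  {Ψ : κ → MvPolynomial (Fin (m + 1)) ℂ} {F : ι → MvPolynomial (Fin (n + 1)) ℂ}
  {Φ : μ → MvPolynomial (Fin (M + 1)) ℂ} {G : Fin (M + 1) → MvPolynomial (Fin (m + 1)) ℂ}
  {B : Fin (n + 1) → MvPolynomial (Fin (m + 1)) ℂ}

/-- values of forms at algebraic points -/
theorem alg_val {K E : Type} [Field K] [Field E] [Algebra ℂ K] [Algebra ℂ E] [Algebra K E]
    [IsScalarTower ℂ K E] {A : IntermediateField ℂ K} {u : Fin (m + 1) → E}
    (hu : ∀ i, IsAlgebraic A (u i)) (T : MvPolynomial (Fin (m + 1)) ℂ) :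
    IsAlgebraic A (val u T) := by
  have h1 : ∀ i, u i ∈ algebraicClosure A E := fun i => (mem_algebraicClosure_iff).2 (hu i)
  rw [← mem_algebraicClosure_iff]
  unfold Pool.Agent.W602.GT.val
  rw [MvPolynomial.aeval_def, MvPolynomial.eval₂_eq']
  refine sum_mem fun α _ => mul_mem ?_ (prod_mem fun i _ => _root_.pow_mem (h1 i) _)
  have h2 : algebraMap ℂ E (MvPolynomial.coeff α T) =
      algebraMap A E (algebraMap ℂ A (MvPolynomial.coeff α T)) := by
    rw [← IsScalarTower.algebraMap_apply]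
  rw [h2]
  exact (algebraicClosure A E).algebraMap_mem _

/-- **Punctured discs.** -/
theorem essential_van (hΨ : ∀ e, IsForm (Ψ e)) (hB : Mor Ψ F B) (hG : Mor Ψ Φ G)
    (hon : Onto Ψ Φ G) {r s N : ℕ} (hfib : FibresLe Ψ G r) (hF : HighPowers s N F)
    (hN : NB r s ≤ N) {f : ℂ → Fin (M + 1) → ℂ} (hf : Essential Φ f)
    {H : MvPolynomial (Fin (M + 1)) ℂ} (hHf : IsForm H)
    (hH : ∀ x ∈ Cone Ψ, im B x ∈ SpGm F → val (im G x) H = 0) {t0 : ℂ}
    (ht0 : t0 ∈ ball (0 : ℂ) 1 \ {0}) : val (f t0) H = 0 := by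
  classical
  have hfan : ∀ i, AnalyticOnNhd ℂ (fun w => f w i) (PB 1) := by
    intro i w hw
    exact (hf.hol i).analyticAt (disc_open.mem_nhds (mem_disc.mpr hw))
  have hinvPB : ∀ {z : ℂ}, z ∈ Om → z⁻¹ ∈ PB 1 := by
    intro z hz
    exact inv_mem_PB one_pos (by rwa [inv_one])
  have hPBinv : ∀ {w : ℂ}, w ∈ PB 1 → w⁻¹ ∈ Om := by
    intro w hw
    have := inv_mem_Ext hw
    rwa [inv_one] at this
  have hOm0 : ∀ {z : ℂ}, z ∈ Om → z ≠ 0 := by
    intro z hz h0
    have h1 : (1 : ℝ) < ‖z‖ := hz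
    rw [h0, norm_zero] at h1
    linarith
  obtain ⟨f', hf'⟩ : ∃ f' : Fin (M + 1) → ℂ → ℂ, ∀ i z, f' i z = f z⁻¹ i := ⟨_, fun _ _ => rfl⟩
  have hf'an : ∀ i, ∀ z ∈ Om, AnalyticAt ℂ (f' i) z := by
    intro i z hz
    have h1 : f' i = (fun w => f w i) ∘ fun z => z⁻¹ := by
      funext v
      exact hf' i v
    rw [h1]
    exact AnalyticAt.comp (hfan i _ (hinvPB hz)) (analyticAt_inv (hOm0 hz))
  have hmer : ∀ i, MeromorphicOn (f' i) Om := fun i z hz => (hf'an i z hz).meromorphicAt
  obtain ⟨z, hzdef⟩ : ∃ z : Fin (M + 1) → MK, z = fun i => cl (f' i) (hmer i) := ⟨_, rfl⟩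
  have hcont : ∀ T : MvPolynomial (Fin (M + 1)) ℂ, ∀ t ∈ Om,
      ContinuousAt (fun t => MvPolynomial.eval (fun i => f' i t) T) t := fun T t ht =>
    (MvPolynomial.continuous_eval T).continuousAt.comp
      (continuousAt_pi.2 fun i => (hf'an i t ht).continuousAt)
  have hevf : ∀ (T : MvPolynomial (Fin (M + 1)) ℂ) (t : ℂ),
      MvPolynomial.eval (fun i => f' i t) T = val (f t⁻¹) T := by
    intro T t
    have h1 : (fun i => f' i t) = f t⁻¹ := by
      funext i
      rw [hf']
    rw [h1]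
    unfold Pool.Agent.W602.GT.val
    rw [MvPolynomial.aeval_eq_eval]
  have hvz : ∀ T : MvPolynomial (Fin (M + 1)) ℂ, val z T = 0 ↔
      ∀ t ∈ ball (0 : ℂ) 1 \ {0}, val (f t) T = 0 := by
    intro T
    rw [hzdef, val_cl hmer T, cl_eq_zero]
    constructor
    · intro h t ht
      have h1 := eq_of_cod (g := fun _ => 0) h (hPBinv (mem_disc.1 ht))
        (hcont T _ (hPBinv (mem_disc.1 ht))) continuousAt_const
      rw [hevf, inv_inv] at h1
      exact h1
    · intro h
      filter_upwards [cod_Om] with t ht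
      rw [hevf]
      exact h _ (mem_disc.2 (hinvPB ht))
  have hz : z ≠ 0 := by
    intro h0
    apply (hf.mem t0 ht0).1
    funext i
    have h1 := (hvz (MvPolynomial.X i)).1 (by
      unfold Pool.Agent.W602.GT.val
      rw [MvPolynomial.aeval_X, h0]
      rfl) t0 ht0
    unfold Pool.Agent.W602.GT.val at h1
    rw [MvPolynomial.aeval_X] at h1
    exact h1
  have hzΦ : ∀ e, val z (Φ e) = 0 := fun e => (hvz _).2 fun t ht => (hf.mem t ht).2 e
  obtain ⟨E, i1, i2, i3, i4, i5, u, i0, c, hrk, hu0, huΨ, hc0, hcz, -⟩ :=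
    lift_point hΨ hG hon hfib hz hzΦ
  have hu : u ≠ 0 := by
    intro h0
    rw [h0] at hu0
    exact zero_ne_one hu0
  obtain ⟨hy, hyF⟩ := hB.mem hu huΨ
  obtain ⟨j1, hj1'⟩ := Function.ne_iff.1 hy
  have hj1 : im B u j1 ≠ 0 := hj1'
  -- the algebraic case
  have hcst : ¬ Alg0 j1 (im B u) := by
    intro hc
    have h2 : ∀ i, IsAlgebraic MI (u i) := by
      intro i
      have h3 := fin_alg hΨ hB (i0 := i0) (by rw [hu0]; exact one_ne_zero) huΨ i
      rw [hu0, div_one] at h3
      exact alg_coords hj1 hc h3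
    obtain ⟨b, hb'⟩ := Function.ne_iff.1 hz
    have hb : z b ≠ 0 := hb'
    have hbE : algebraMap MK E (z b) ≠ 0 := by
      rw [Ne, map_eq_zero]
      exact hb
    have hub : im G u b ≠ 0 := by
      intro h0
      have h4 := hcz b
      rw [h0, mul_zero] at h4
      exact hbE h4
    have hall : ∀ j, MInf (z j / z b) := by
      intro j
      have h3 : algebraMap MK E (z j / z b) = im G u j * (im G u b)⁻¹ := by
        rw [map_div₀, hcz, hcz]
        field_simp
      have h4 : IsAlgebraic MI (algebraMap MK E (z j / z b)) := by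
        rw [h3]
        exact (alg_val h2 (G j)).mul (alg_val h2 (G b)).inv
      exact minf_of_alg ((isAlgebraic_algebraMap_iff (algebraMap MK E).injective).1 h4)
    apply hf.ess
    refine extends_of f hfan (fun w hw => (hf.mem w (mem_disc.2 hw)).1) fun j k hj hk => ?_
    have hzk : z k ≠ 0 := by
      intro h0
      apply hk
      have h1 := (hvz (MvPolynomial.X k)).1 (by
        unfold Pool.Agent.W602.GT.val
        rw [MvPolynomial.aeval_X, h0])
      filter_upwards [PB_mem one_pos] with w hw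
      have h2 := h1 w (mem_disc.2 hw)
      unfold Pool.Agent.W602.GT.val at h2
      rw [MvPolynomial.aeval_X] at h2
      exact h2
    have hjk : MInf (z j / z k) := by
      have h1 : z j / z k = (z j / z b) * (z k / z b)⁻¹ := by
        field_simp
      rw [h1]
      exact (hall j).mul (hall k).inv
    refine ⟨fun w => Fn (z j / z k) w⁻¹, hjk, ?_⟩
    have h1 : cl (f' j) (hmer j) = cl (fun t => Fn (z j / z k) t * f' k t)
        ((Fn_mero _).mul (hmer k)) := by
      have h2 : cl (f' j) (hmer j) = z j := by rw [hzdef]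
      have h3 : cl (f' k) (hmer k) = z k := by rw [hzdef]
      have h4 : cl (fun t => Fn (z j / z k) t * f' k t) ((Fn_mero _).mul (hmer k)) =
          cl (Fn (z j / z k)) (Fn_mero _) * cl (f' k) (hmer k) := rfl
      rw [h4, h2, h3, cl_Fn, div_mul_cancel₀ _ hzk]
    rw [cl_eq] at h1
    filter_upwards [hjk.reg, PB_mem one_pos] with w hw1 hw2
    have hwO := hPBinv hw2
    have h2 := eq_of_cod (f := f' j) (g := fun t => Fn (z j / z k) t * f' k t) h1 hwO
      (hf'an j _ hwO).continuousAt (hw1.continuousAt.mul (hf'an k _ hwO).continuousAt)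
    rw [hf', hf', inv_inv] at h2
    exact h2
  have hN1 : 1 ≤ N := (one_le_NB r s).trans hN
  have hvan : ∀ H', IsForm H' → VanGm F H' → val (im B u) H' = 0 := by
    intro H' hH' hGm
    rcases hF with h | h
    · choose r' d l hr hd hFe using h
      have hd0 : ∀ e, 0 < d e := fun e => lt_of_lt_of_le hN1 (hd e)
      have hsum : ∀ e, ∑ j, lin (l e j) (im B u) ^ d e = 0 := by
        intro e
        have h1 := hyF e
        unfold Pool.Agent.W602.GT.val at h1
        rw [hFe e, map_sum] at h1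
        refine Eq.trans (Finset.sum_congr rfl fun j _ => ?_) h1
        rw [map_pow, map_sum]
        simp only [map_mul, MvPolynomial.aeval_C, MvPolynomial.aeval_X]
        rfl
      rcases ana_war hrk hN hr hd hj1 hsum with h1 | h1
      · exact absurd h1 hcst
      · exact van_walt hd0 hFe hj1 h1 hH' hGm
    · rcases ana_sp hrk hN h hj1 hyF with h1 | h1
      · exact absurd h1 hcst
      · exact van_wt (fun e => (h e).1) h1 hGm
  have h1 := van_im hB hH hu0 huΨ hvan
  exact (hvz H).1 (val_prop hcz hHf h1) t0 ht0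

end Pool.Agent.Y221.FQ
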