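import Pool.Agent.Y221.FQ.Lift
import Pool.Agent.Y221.BD.Str

/-!
Entire curves in the images of finite morphisms.
-/

set_option autoImplicit false
set_option maxHeartbeats 400000
set_option linter.overlappingInstances false
set_option linter.unusedSectionVars false

namespace Pool.Agent.Y221.FQ

open Pool.Agent.W602.GT Filter

section

variable {k : Type} [Field k] [IsAlgClosed k] {m n M : ℕ} {ι κ μ : Type}
  {Ψ : κ → MvPolynomial (Fin (m + 1)) k} {F : ι → MvPolynomial (Fin (n + 1)) k}
  {Φ : μ → MvPolynomial (Fin (M + 1)) k} {G : Fin (M + 1) → MvPolynomial (Fin (m + 1)) k}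
  {B : Fin (n + 1) → MvPolynomial (Fin (m + 1)) k}

/-- the image of the closed set is closed -/
theorem closed_im (hΨ : ∀ e, IsForm (Ψ e)) (hB : Mor Ψ F B) (hG : Mor Ψ Φ G)
    {q : Fin (M + 1) → k} (hq : q ≠ 0)
    (hH : ∀ H : MvPolynomial (Fin (M + 1)) k, IsForm H →
      (∀ x ∈ Cone Ψ, im B x ∈ SpGm F → val (im G x) H = 0) → val q H = 0) : ∃ x ∈ Cone Ψ, im B x ∈ SpGm F ∧ im G x = q := by
  obtain ⟨e, he, hGe⟩ := hG.form
  obtain ⟨e', he', hBe⟩ := hB.form
  let Ψ' : κ ⊕ {H' : MvPolynomial (Fin (n + 1)) k // IsForm H' ∧ VanGm F H'} →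
      MvPolynomial (Fin (m + 1)) k := Sum.elim Ψ fun H' => MvPolynomial.aeval B H'.1
  have hΨ' : ∀ a, IsForm (Ψ' a) := by
    rintro (a | a)
    · exact hΨ a
    · exact form_im hBe a.2.1
  have hC : ∀ x, x ∈ Cone Ψ' → x ∈ Cone Ψ ∧ im B x ∈ SpGm F := by
    rintro x ⟨hx0, hx⟩
    have h1 : x ∈ Cone Ψ := ⟨hx0, fun a => hx (Sum.inl a)⟩
    refine ⟨h1, hB.maps x h1, fun H' hH' hGm => ?_⟩
    rw [val_im]
    exact hx (Sum.inr ⟨H', hH', hGm⟩)
  obtain ⟨x, hx, hxq⟩ := surj (F := Ψ') (G := G) hΨ' (fun x hx0 hx => by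
    exact hG.noBase x hx0 fun a => hx (Sum.inl a)) he hGe (Ω := k) (z := q)
    (fun H hHf hH' => hH H hHf fun x hx hBx => hH' x ⟨hx.1, by
      rintro (a | a)
      · exact hx.2 a
      · change val x (MvPolynomial.aeval B a.1) = 0
        rw [← val_im]
        exact hBx.2 a.1 a.2.1 a.2.2⟩)
  have hx0 : x ≠ 0 := by
    rintro rfl
    apply hq
    rw [← hxq]
    have h2 : (0 : Fin (m + 1) → k) = fun i => (0 : k) * (0 : Fin (m + 1) → k) i := by
      funext i
      simp
    rw [h2, im_smul hGe, zero_pow (by omega)]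
    funext j
    simp
  obtain ⟨h1, h2⟩ := hC x ⟨hx0, hx⟩
  exact ⟨x, h1, h2, hxq⟩

/-- algebraic elements over an algebraically closed field -/
theorem alg_mem {K : Type} [Field K] [Algebra k K] {x : K}
    (h : IsAlgebraic (⊥ : IntermediateField k K) x) : ∃ a : k, algebraMap k K a = x := by
  have h0 : IsAlgebraic k x := h.restrictScalars k
  have h1 : Algebra.IsAlgebraic k (IntermediateField.adjoin k {x}) :=
    IntermediateField.isAlgebraic_adjoin_simple h0.isIntegral
  have h2 := IntermediateField.eq_bot_of_isAlgClosed_of_isAlgebraic (IntermediateField.adjoin k {x})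
  have h3 : x ∈ IntermediateField.adjoin k {x} := IntermediateField.mem_adjoin_simple_self k x
  rw [h2, IntermediateField.mem_bot] at h3
  exact h3

/-- values of a form at proportional points -/
theorem val_prop {K E : Type} [Field K] [Field E] [Algebra k K] [Algebra k E] [Algebra K E]
    [IsScalarTower k K E] {z : Fin (M + 1) → K} {v : Fin (M + 1) → E} {c : E}
    (h : ∀ j, algebraMap K E (z j) = c * v j) {H : MvPolynomial (Fin (M + 1)) k}
    (hH : IsForm H) (hv : val v H = 0) : val z H = 0 := by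
  obtain ⟨d, hd⟩ := hH
  apply (algebraMap K E).injective
  have h1 := val_map (IsScalarTower.toAlgHom k K E) H z
  have h2 : (fun i => (IsScalarTower.toAlgHom k K E) (z i)) = fun i => c * v i := funext h
  rw [h2, val_smul hd, hv, mul_zero] at h1
  rw [map_zero]
  exact h1

end

variable {m n M : ℕ} {ι κ μ : Type}
  {Ψ : κ → MvPolynomial (Fin (m + 1)) ℂ} {F : ι → MvPolynomial (Fin (n + 1)) ℂ}
  {Φ : μ → MvPolynomial (Fin (M + 1)) ℂ} {G : Fin (M + 1) → MvPolynomial (Fin (m + 1)) ℂ}
  {B : Fin (n + 1) → MvPolynomial (Fin (m + 1)) ℂ}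

open Pool.Agent.Y221.AB Pool.Agent.TH143.EL Pool.Agent.Y221.BD

/-- **Entire curves.** -/
theorem entire_van (hΨ : ∀ e, IsForm (Ψ e)) (hB : Mor Ψ F B) (hG : Mor Ψ Φ G)
    (hon : Onto Ψ Φ G) {r s N : ℕ} (hfib : FibresLe Ψ G r) (hF : HighPowers s N F)
    (hN : NB r s ≤ N) {f : ℂ → Fin (M + 1) → ℂ} (hf : Entire Φ f)
    {H : MvPolynomial (Fin (M + 1)) ℂ} (hHf : IsForm H)
    (hH : ∀ x ∈ Cone Ψ, im B x ∈ SpGm F → val (im G x) H = 0) (t : ℂ) : val (f t) H = 0 := by
  classical
  obtain ⟨f', hf'⟩ : ∃ f' : Fin (M + 1) → ℂ → ℂ, ∀ i t, f' i t = f t i := ⟨_, fun _ _ => rfl⟩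
  have hff : ∀ t, (fun i => f' i t) = f t := fun t => funext fun i => hf' i t
  have hhol : ∀ i, Differentiable ℂ (f' i) := by
    intro i
    have : f' i = fun t => f t i := funext (hf' i)
    rw [this]
    exact hf.hol i
  have hmer : ∀ i, Meromorphic (f' i) := fun i t =>
    ((hhol i).analyticAt t).meromorphicAt
  obtain ⟨z, hzdef⟩ : ∃ z : Fin (M + 1) → MK, z = fun i => cl (f' i) (hmer i) := ⟨_, rfl⟩
  have hcont : ∀ T : MvPolynomial (Fin (M + 1)) ℂ,
      Continuous fun t => MvPolynomial.eval (fun i => f' i t) T := fun T =>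
    (MvPolynomial.continuous_eval T).comp (continuous_pi fun i => (hhol i).continuous)
  have hvz : ∀ T : MvPolynomial (Fin (M + 1)) ℂ, val z T = 0 ↔ ∀ t, val (f t) T = 0 := by
    intro T
    rw [hzdef, val_cl hmer T, cl_eq_zero]
    have h1 : ∀ t, MvPolynomial.eval (fun i => f' i t) T = val (f t) T := by
      intro t
      rw [hff]
      unfold Pool.Agent.W602.GT.val
      rw [MvPolynomial.aeval_eq_eval]
    constructor
    · intro h t
      rw [← h1]
      exact eq_of_codis (g := fun _ => 0) h (hcont T).continuousAt continuousAt_const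
    · intro h
      exact Eventually.of_forall fun t => (h1 t).trans (h t)
  have hzj : ∀ (a : ℂ) i j, z i = algebraMap ℂ MK a * z j → ∀ t, f t i = a * f t j := by
    intro a i j h t
    have h1 := (hvz (MvPolynomial.X i - MvPolynomial.C a * MvPolynomial.X j)).1 (by
      unfold Pool.Agent.W602.GT.val
      rw [map_sub, map_mul, MvPolynomial.aeval_X, MvPolynomial.aeval_X, MvPolynomial.aeval_C, h,
        sub_self]) t
    unfold Pool.Agent.W602.GT.val at h1
    rw [map_sub, map_mul, MvPolynomial.aeval_X, MvPolynomial.aeval_X, MvPolynomial.aeval_C,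
      sub_eq_zero] at h1
    exact h1
  have hz : z ≠ 0 := by
    intro h0
    apply (hf.mem 0).1
    funext i
    have h1 := hzj 0 i i (by rw [h0]; simp) 0
    rw [h1, zero_mul]
    rfl
  have hzΦ : ∀ e, val z (Φ e) = 0 := fun e => (hvz _).2 fun t => (hf.mem t).2 e
  obtain ⟨E, i1, i2, i3, i4, i5, u, i0, c, hrk, hu0, huΨ, hc0, hcz, -⟩ :=
    lift_point hΨ hG hon hfib hz hzΦ
  have hu : u ≠ 0 := by
    intro h0
    rw [h0] at hu0
    exact zero_ne_one hu0
  obtain ⟨hy, hyF⟩ := hB.mem hu huΨ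
  obtain ⟨j1, hj1'⟩ := Function.ne_iff.1 hy
  have hj1 : im B u j1 ≠ 0 := hj1'
  -- the constant case
  have hcst : ¬ Cst j1 (im B u) := by
    intro hc
    have h1 := coords_cst hj1 hc
    have h2 : ∀ i, ∃ a : ℂ, algebraMap ℂ E a = u i := by
      intro i
      have h3 := fin_alg hΨ hB (i0 := i0) (by rw [hu0]; exact one_ne_zero) huΨ i
      rw [h1, hu0, div_one] at h3
      exact alg_mem h3
    choose a ha using h2
    have h3 : ∀ j, im G u j = algebraMap ℂ E (im G a j) := by
      intro j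
      have h4 := val_map (Algebra.ofId ℂ E) (G j) a
      have h5 : (fun i => (Algebra.ofId ℂ E) (a i)) = u := funext ha
      rw [h5] at h4
      exact h4.symm
    obtain ⟨b, hb'⟩ := Function.ne_iff.1 hz
    have hb : z b ≠ 0 := hb'
    have hbE : algebraMap MK E (z b) ≠ 0 := by
      rw [Ne, map_eq_zero]
      exact hb
    have hub : im G a b ≠ 0 := by
      intro h0
      have h4 := hcz b
      rw [h3, h0, map_zero, mul_zero] at h4
      exact hbE h4
    have h4 : ∀ j, z j = algebraMap ℂ MK (im G a j / im G a b) * z b := by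
      intro j
      apply (algebraMap MK E).injective
      have hub' : algebraMap ℂ E (im G a b) ≠ 0 := by
        rw [Ne, map_eq_zero]
        exact hub
      rw [map_mul, ← IsScalarTower.algebraMap_apply ℂ MK E, hcz, hcz, h3, h3, map_div₀]
      field_simp
    obtain ⟨t1, t2, hli⟩ := hf.nonconst
    rw [LinearIndependent.pair_iff] at hli
    have h5 : ∀ t i, f t i = im G a i / im G a b * f t b := fun t i => hzj _ _ _ (h4 i) t
    have h6 := hli (f t2 b) (-(f t1 b)) (by
      funext i
      simp only [Pi.add_apply, Pi.smul_apply, smul_eq_mul, Pi.zero_apply]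
      rw [h5 t1 i, h5 t2 i]
      ring)
    apply (hf.mem t2).1
    funext i
    rw [h5 t2 i, h6.1, mul_zero]
    rfl
  have hN1 : 1 ≤ N := (one_le_NB r s).trans hN
  have hvan : ∀ H', IsForm H' → VanGm F H' → val (im B u) H' = 0 := by
    intro H' hH' hGm
    rcases hF with h | h
    · choose r' d l hr hd hFe using h
      have hd0 : ∀ e, 0 < d e := fun e => lt_of_lt_of_le hN1 (hd e)
      have hsum : ∀ e, ∑ j, lin (l e j) (im B u) ^ d e = 0 := by
        intro e
        have h1 := hyF e
        unfold Pool.Agent.W602.GT.val at h1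
        rw [hFe e, map_sum] at h1
        refine Eq.trans (Finset.sum_congr rfl fun j _ => ?_) h1
        rw [map_pow, map_sum]
        simp only [map_mul, MvPolynomial.aeval_C, MvPolynomial.aeval_X]
        rfl
      rcases ana_war hrk hN hr hd hj1 hsum with h1 | h1
      · exact absurd h1 hcst
      · exact van_walt hd0 hFe hj1 h1 hH' hGm
    · rcases ana_sp hrk hN h hj1 hyF with h1 | h1
      · exact absurd h1 hcst
      · exact van_wt (fun e => (h e).1) h1 hGm
  have h1 := van_im hB hH hu0 huΨ hvan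
  exact (hvz H).1 (val_prop hcz hHf h1) t

end Pool.Agent.Y221.FQ
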