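import Pool.Agent.Y221.FQ.Lift
import Pool.Agent.Y221.FQ.Crv

/-!
Subvarieties of the images of finite morphisms.
-/

set_option autoImplicit false
set_option maxHeartbeats 400000
set_option linter.overlappingInstances false
set_option linter.unusedSectionVars false

open FF IntermediateField Pool.Agent.W603.LV

namespace Pool.Agent.Y221.FQ

open Pool.Agent.W602.GT Pool.Agent.TH466.QG

variable {k : Type} [Field k] [IsAlgClosed k] [CharZero k] {m n M : ℕ} {ι κ μ : Type}
  {Ψ : κ → MvPolynomial (Fin (m + 1)) k} {F : ι → MvPolynomial (Fin (n + 1)) k}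
  {Φ : μ → MvPolynomial (Fin (M + 1)) k} {G : Fin (M + 1) → MvPolynomial (Fin (m + 1)) k}
  {B : Fin (n + 1) → MvPolynomial (Fin (m + 1)) k}

/-- the field of the lifted point is algebraic -/
theorem lift_alg (hΨ : ∀ e, IsForm (Ψ e)) (hB : Mor Ψ F B) {K E : Type} [Field K] [Field E]
    [Algebra k K] [Algebra k E] [Algebra K E] [IsScalarTower k K E] {z : Fin (M + 1) → K}
    (hgen : coords k z = ⊤) {u : Fin (m + 1) → E} {i0 : Fin (m + 1)} {c : E} (hu0 : u i0 = 1)
    (huΨ : ∀ e, val u (Ψ e) = 0) (hc0 : c ≠ 0) (hcz : ∀ j, algebraMap K E (z j) = c * im G u j)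
    (htop : IntermediateField.adjoin K (Set.range u) = ⊤) :
    Algebra.IsAlgebraic (coords k (im B u)) E := by
  obtain ⟨C, hC⟩ : ∃ C, C = coords k (im B u) := ⟨_, rfl⟩
  rw [← hC]
  have hu : ∀ i, u i ∈ algebraicClosure C E := by
    intro i
    rw [mem_algebraicClosure_iff, hC]
    have h3 := fin_alg hΨ hB (i0 := i0) (by rw [hu0]; exact one_ne_zero) huΨ i
    rw [hu0, div_one] at h3
    exact h3
  have hval : ∀ T : MvPolynomial (Fin (m + 1)) k, val u T ∈ algebraicClosure C E := by
    intro T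
    unfold Pool.Agent.W602.GT.val
    rw [MvPolynomial.aeval_def, MvPolynomial.eval₂_eq']
    refine sum_mem fun α _ => mul_mem ?_ (prod_mem fun i _ => _root_.pow_mem (hu i) _)
    have h2 : algebraMap k E (MvPolynomial.coeff α T) =
        algebraMap C E (algebraMap k C (MvPolynomial.coeff α T)) := by
      rw [← IsScalarTower.algebraMap_apply]
    rw [h2]
    exact (algebraicClosure C E).algebraMap_mem _
  have hK : ∀ x : K, algebraMap K E x ∈ algebraicClosure C E := by
    intro x
    have h1 : coords k z ≤ ((algebraicClosure C E).restrictScalars k).comap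
        (IsScalarTower.toAlgHom k K E) := by
      unfold Pool.Agent.W602.GT.coords
      rw [IntermediateField.adjoin_le_iff]
      rintro _ ⟨i, j, hj, rfl⟩
      change algebraMap K E (z i / z j) ∈ algebraicClosure C E
      have h2 : algebraMap K E (z i / z j) = im G u i / im G u j := by
        rw [map_div₀, hcz, hcz, mul_div_mul_left _ _ hc0]
      rw [h2]
      exact div_mem (hval _) (hval _)
    exact h1 (by rw [hgen]; exact IntermediateField.mem_top)
  have hle : IntermediateField.adjoin K (Set.range u) ≤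
      (algebraicClosure C E).toSubfield.toIntermediateField hK := by
    rw [IntermediateField.adjoin_le_iff]
    rintro _ ⟨i, rfl⟩
    exact hu i
  rw [htop] at hle
  refine ⟨fun x => ?_⟩
  have h1 : x ∈ algebraicClosure C E := hle (IntermediateField.mem_top (F := K) (x := x))
  rw [mem_algebraicClosure_iff] at h1
  exact h1

/-- **Subvarieties.** -/
theorem sub_van (hΨ : ∀ e, IsForm (Ψ e)) (hB : Mor Ψ F B) (hG : Mor Ψ Φ G)
    (hon : Onto Ψ Φ G) {r s N : ℕ} (hfib : FibresLe Ψ G r) (hF : HighPowers s N F)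
    (hN1 : 1 ≤ N) (hN : r * (n * ((s + 4) * ((s - 1) * (s - 2) / 2))) ≤ N) {K : Type} [Field K]
    [Algebra k K] {w : ℕ} {z : Fin (M + 1) → K} (hw : 1 ≤ w) (hz : SubVar Φ K w z)
    (hgt : ¬ GeneralType k K w) {H : MvPolynomial (Fin (M + 1)) k} (hHf : IsForm H)
    (hH : ∀ x ∈ Cone Ψ, im B x ∈ SpGm F → val (im G x) H = 0) : val z H = 0 := by
  obtain ⟨E, i1, i2, i3, i4, i5, u, i0, c, hrk, hu0, huΨ, hc0, hcz, htop⟩ :=
    lift_point hΨ hG hon hfib hz.ne hz.mem
  have hu : u ≠ 0 := by
    intro h0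
    rw [h0] at hu0
    exact zero_ne_one hu0
  obtain ⟨hy, hyF⟩ := hB.mem hu huΨ
  have halg := lift_alg (G := G) hΨ hB hz.gen hu0 huΨ hc0 hcz htop
  have htr : Algebra.trdeg k E = w := by rw [trdeg_alg (E := K), hz.dim]
  have hwn : w ≤ n := Pool.Agent.W602.GT.dim_le hy halg htr
  have hC : ¬ HasCirc k s N w E := by
    intro hC
    apply hgt
    refine general_below hw hrk hC ?_
    rw [tn_eq]
    refine le_trans ?_ hN
    exact Nat.mul_le_mul_left _ (Nat.mul_le_mul_right _ hwn)
  refine val_prop hcz hHf (van_im hB hH hu0 huΨ fun H' hH' hGm => ?_)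
  exact van_circ hF hN1 htr hy halg hyF hC hH' hGm

end Pool.Agent.Y221.FQ
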