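import Pool.Agent.Y221.FQ.Lift
import Pool.Agent.Y221.FQ.Pun
import Pool.Agent.Y221.FQ.Sub

/-!
Images of the multiplicative group, entire curves and punctured discs.
-/

set_option autoImplicit false
set_option maxHeartbeats 400000
set_option linter.overlappingInstances false
set_option linter.unusedSectionVars false

namespace Pool.Agent.Y221.FQ

open Pool.Agent.W602.GT

section

variable {k : Type} [Field k] [IsAlgClosed k] {m n M : ℕ} {ι κ μ : Type}
  {Ψ : κ → MvPolynomial (Fin (m + 1)) k} {Φ : μ → MvPolynomial (Fin (M + 1)) k}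
  {G : Fin (M + 1) → MvPolynomial (Fin (m + 1)) k}

theorem coords_bot {K : Type} [Field K] [Algebra k K] {b : Fin (M + 1)}
    {y : Fin (M + 1) → K} (h : ∀ i, ∃ c : k, y i = algebraMap k K c * y b) :
    coords k y = ⊥ := by
  rw [eq_bot_iff]
  unfold Pool.Agent.W602.GT.coords
  rw [IntermediateField.adjoin_le_iff]
  rintro _ ⟨i, j, hj, rfl⟩
  obtain ⟨c, hc⟩ := h i
  obtain ⟨c', hc'⟩ := h j
  rw [SetLike.mem_coe, IntermediateField.mem_bot]
  refine ⟨c / c', ?_⟩
  have h1 : algebraMap k K c' ≠ 0 := by
    intro h0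
    rw [h0, zero_mul] at hc'
    exact hj hc'
  have h2 : y b ≠ 0 := by
    intro h0
    rw [h0, mul_zero] at hc'
    exact hj hc'
  rw [hc, hc', map_div₀]
  field_simp

theorem eval_im (P : Fin (m + 1) → Polynomial k) (t : k) :
    (fun j => (MvPolynomial.aeval P (G j)).eval t) = im G fun i => (P i).eval t := by
  funext j
  have h1 : (Polynomial.aeval t : Polynomial k →ₐ[k] k).comp (MvPolynomial.aeval P) =
      MvPolynomial.aeval (fun i => (P i).eval t) := by
    apply MvPolynomial.algHom_ext
    intro i
    simp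
  have h2 := DFunLike.congr_fun h1 (G j)
  rw [AlgHom.comp_apply, Polynomial.coe_aeval_eq_eval] at h2
  exact h2

/-- **Images of the multiplicative group.** -/
theorem gm_im (hΨ : ∀ e, IsForm (Ψ e)) (hG : Mor Ψ Φ G) {P : Fin (m + 1) → Polynomial k}
    (hP : GmCurve Ψ P) : GmCurve Φ fun j => MvPolynomial.aeval P (G j) := by
  classical
  have hinf : Infinite k := IsAlgClosed.instInfinite
  have hcone : ∀ t : k, t ≠ 0 → (fun i => (P i).eval t) ∈ Cone Ψ := fun t ht =>
    ⟨hP.ne t ht, hP.mem t ht⟩
  refine ⟨fun t ht => ?_, fun t ht e => ?_, ?_⟩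
  · rw [eval_im]
    exact (hG.maps _ (hcone t ht)).1
  · rw [eval_im]
    exact (hG.maps _ (hcone t ht)).2 e
  · by_contra hcon
    push Not at hcon
    simp only [eval_im] at hcon
    obtain ⟨b, hb⟩ := Function.ne_iff.1 (hG.maps _ (hcone 1 one_ne_zero)).1
    have hb' : im G (fun i => (P i).eval 1) b ≠ 0 := hb
    have hpr : ∀ t : k, t ≠ 0 → ∀ j, im G (fun i => (P i).eval t) j *
        im G (fun i => (P i).eval 1) b = im G (fun i => (P i).eval 1) j *
        im G (fun i => (P i).eval t) b := by
      intro t ht j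
      have h1 := hcon 1 t one_ne_zero ht
      rw [LinearIndependent.pair_iff] at h1
      push Not at h1
      obtain ⟨a, a', haa, hne⟩ := h1
      have ha' : a' ≠ 0 := by
        rintro rfl
        have h2 := congrFun haa b
        simp only [zero_smul, add_zero, Pi.smul_apply, smul_eq_mul, Pi.zero_apply] at h2
        exact hne ((mul_eq_zero.1 h2).resolve_right hb') rfl
      have h2 := congrFun haa b
      have h3 := congrFun haa j
      simp only [Pi.add_apply, Pi.smul_apply, smul_eq_mul, Pi.zero_apply] at h2 h3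
      apply mul_left_cancel₀ ha'
      linear_combination im G (fun i => (P i).eval 1) b * h3 -
        im G (fun i => (P i).eval 1) j * h2
    let ev : Polynomial k →ₐ[k] RatFunc k :=
      (Algebra.ofId (Polynomial k) (RatFunc k)).restrictScalars k
    have hinj : Function.Injective ev := RatFunc.algebraMap_injective k
    let y : Fin (m + 1) → RatFunc k := fun i => ev (P i)
    have hval : ∀ (T : MvPolynomial (Fin (m + 1)) k), val y T = ev (MvPolynomial.aeval P T) := by
      intro T
      unfold Pool.Agent.W602.GT.val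
      rw [← MvPolynomial.comp_aeval_apply]
    have hevT : ∀ (T : MvPolynomial (Fin (m + 1)) k) (t : k),
        (MvPolynomial.aeval P T).eval t = val (fun i => (P i).eval t) T := by
      intro T t
      exact congrFun (eval_im (M := 0) (G := fun _ => T) P t) 0
    obtain ⟨i0, hi0⟩ : ∃ i0, P i0 ≠ 0 := by
      by_contra hcon
      push Not at hcon
      apply hP.ne 1 one_ne_zero
      funext i
      rw [hcon i]
      simp
    have hi0' : y i0 ≠ 0 := by
      intro h0
      exact hi0 (hinj (by rw [map_zero]; exact h0))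
    have hyΨ : ∀ e, val y (Ψ e) = 0 := by
      intro e
      rw [hval]
      have h0 : MvPolynomial.aeval P (Ψ e) = 0 := poly_zero fun t ht => by
        rw [hevT]
        exact hP.mem t ht e
      rw [h0, map_zero]
    have hbot : coords k (im G y) = ⊥ := by
      refine coords_bot (b := b) fun j => ⟨im G (fun i => (P i).eval 1) j /
        im G (fun i => (P i).eval 1) b, ?_⟩
      have h1 : MvPolynomial.aeval P (G j) = Polynomial.C (im G (fun i => (P i).eval 1) j /
          im G (fun i => (P i).eval 1) b) * MvPolynomial.aeval P (G b) := by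
        rw [← sub_eq_zero]
        refine poly_zero fun t ht => ?_
        rw [Polynomial.eval_sub, Polynomial.eval_mul, Polynomial.eval_C, hevT, hevT]
        have h2 := hpr t ht j
        change im G (fun i => (P i).eval t) j - _ * im G (fun i => (P i).eval t) b = 0
        field_simp
        linear_combination h2
      change val y (G j) = _ * val y (G b)
      rw [hval, hval, h1, map_mul]
      congr 1
    have hc : ∀ i, ∃ c : k, P i = Polynomial.C c * P i0 := by
      intro i
      have h1 := fin_alg hΨ hG hi0' hyΨ i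
      rw [hbot] at h1
      obtain ⟨c, hc⟩ := alg_mem h1
      refine ⟨c, hinj ?_⟩
      rw [map_mul]
      have h2 : ev (Polynomial.C c) = algebraMap k (RatFunc k) c := by
        rw [IsScalarTower.algebraMap_apply k (Polynomial k) (RatFunc k)]
        rfl
      rw [h2, hc]
      change y i = y i / y i0 * y i0
      field_simp
    choose c hc using hc
    obtain ⟨t1, t2, ht1, ht2, hli⟩ := hP.nonconst
    rw [LinearIndependent.pair_iff] at hli
    have h3 := hli ((P i0).eval t2) (-(P i0).eval t1) (by
      funext i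
      simp only [Pi.add_apply, Pi.smul_apply, smul_eq_mul, Pi.zero_apply]
      rw [hc i]
      simp
      ring)
    apply hP.ne t2 ht2
    funext i
    rw [hc i]
    simp [h3.1]

theorem spgm_im (hΨ : ∀ e, IsForm (Ψ e)) (hG : Mor Ψ Φ G) {x : Fin (m + 1) → k}
    (hx : x ∈ SpGm Ψ) : im G x ∈ SpGm Φ := by
  obtain ⟨e, he, hGe⟩ := hG.form
  refine ⟨hG.maps x hx.1, fun H hH hGm => ?_⟩
  rw [val_im]
  refine hx.2 _ (form_im hGe hH) fun P hP t ht => ?_
  have h1 := hGm _ (gm_im hΨ hG hP) t ht
  rw [eval_im, val_im] at h1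
  exact h1

end

variable {M : ℕ} {μ : Type} {Φ : μ → MvPolynomial (Fin (M + 1)) ℂ}

open Pool.Agent.W603.BP Metric

/-- images of the multiplicative group and entire curves -/
theorem entire_of_gm {P : Fin (M + 1) → Polynomial ℂ} (hP : GmCurve Φ P) :
    Entire Φ fun z i => (P i).eval (Complex.exp z) := by
  refine ⟨fun i => (P i).differentiable.comp Complex.differentiable_exp,
    fun z => ⟨hP.ne _ (Complex.exp_ne_zero z), fun e => hP.mem _ (Complex.exp_ne_zero z) e⟩, ?_⟩
  obtain ⟨t, t', ht, ht', hli⟩ := hP.nonconst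
  refine ⟨Complex.log t, Complex.log t', ?_⟩
  rw [Complex.exp_log ht, Complex.exp_log ht']
  exact hli

theorem gm_sub_h : SpGm Φ ⊆ SpH Φ := by
  rintro q ⟨hq, h⟩
  refine ⟨hq, fun H hH hE => h H hH fun P hP t ht => ?_⟩
  have h1 := hE _ (entire_of_gm hP) (Complex.log t)
  rw [Complex.exp_log ht] at h1
  exact h1

/-- entire curves and punctured discs -/
theorem essential_of_entire {f : ℂ → Fin (M + 1) → ℂ} (hf : Entire Φ f) :
    Essential Φ fun w => f (Complex.sin w⁻¹) := by
  have hE : Pool.Agent.H159R3.GGLLog.EntireCurve (ι := Empty) ∅ (fun e => e.elim) f := by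
    refine ⟨?_, fun z => ⟨(hf.mem z).1, fun j hj => absurd hj (Set.notMem_empty j),
      fun e => e.elim⟩, ?_⟩
    · rw [differentiable_pi]
      exact hf.hol
    · obtain ⟨a, b, hab⟩ := hf.nonconst
      refine ⟨a, b, fun c hc => ?_⟩
      rw [LinearIndependent.pair_iff] at hab
      have h1 := hab 1 (-c) (by rw [hc]; simp)
      exact one_ne_zero h1.1
  obtain ⟨⟨h1, h2⟩, h3⟩ := sin_curve hE
  exact ⟨fun i t ht => (differentiableWithinAt_pi.mp (h1 t ht)) i, fun t _ => hf.mem _, h3⟩

theorem h_sub_p : SpH Φ ⊆ SpP Φ := by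
  rintro q ⟨hq, h⟩
  refine ⟨hq, fun H hH hE => h H hH fun f hf t => ?_⟩
  obtain ⟨w, hw, hws⟩ := sin_point t
  have h1 := hE _ (essential_of_entire hf) w hw
  rw [hws] at h1
  exact h1

end Pool.Agent.Y221.FQ
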