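import Pool.Agent.Y221.BD.Mv
import Pool.Agent.TH466.QG.Spe

/-!
Forms which vanish on the images of the multiplicative group vanish at the moving points.
-/

set_option autoImplicit false
set_option maxHeartbeats 400000
set_option linter.overlappingInstances false
set_option linter.unusedSectionVars false

open FF IntermediateField Pool.Agent.W603.LV

namespace Pool.Agent.Y221.FQ

open Pool.Agent.W602.GT Pool.Agent.TH466.QG Pool.Agent.Y221.BD

variable {k : Type} [Field k] {n : ℕ} {ι : Type}

/-- the form vanishes on all images of the multiplicative group in `{F = 0}` -/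
def VanGm (F : ι → MvPolynomial (Fin (n + 1)) k) (H : MvPolynomial (Fin (n + 1)) k) : Prop :=
  ∀ P, GmCurve F P → ∀ t : k, t ≠ 0 → val (fun i => (P i).eval t) H = 0

variable [CharZero k] [IsAlgClosed k]

/-- a point on a line over an extension field -/
theorem van_line {F : ι → MvPolynomial (Fin (n + 1)) k} {K : Type} [Field K] [Algebra k K]
    {y v : Fin (n + 1) → K} (hv : ∃ i j, y i * v j - y j * v i ≠ 0)
    (hl : ∀ (c c' : K) (e : ι), val (fun l => c * y l + c' * v l) (F e) = 0)
    {H : MvPolynomial (Fin (n + 1)) k} (hHf : IsForm H) (hGm : VanGm F H) : val y H = 0 := by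
  have hinf : Infinite k := inferInstance
  refine mem_closure y v hv hl ?_
  intro a b hab c c'
  by_cases hc : c = 0
  · by_cases hc' : c' = 0
    · rw [hc, hc']
      have h1 := val_zero_of hHf (line_key hGm hab)
      simpa using h1
    · have h1 := line_key hGm (line_move hab (-1) 0 1 c' (by simpa using hc'))
      have e : (-1 : k) • a + (0 : k) • b + ((1 : k) • a + c' • b) = c • a + c' • b := by
        rw [hc]
        funext i
        simp
      rwa [e] at h1
  · have h1 := line_key hGm (line_move hab 0 (-1) c (c' + 1) (by simpa using hc))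
    have e : (0 : k) • a + (-1 : k) • b + (c • a + (c' + 1) • b) = c • a + c' • b := by
      funext i
      simp
      ring
    rwa [e] at h1

/-- diagonal motions -/
theorem van_wt {F : ι → MvPolynomial (Fin (n + 1)) k} (hFf : ∀ e, IsForm (F e)) {K : Type}
    [Field K] [Algebra k K] {y : Fin (n + 1) → K} (h : WtMv F y)
    {H : MvPolynomial (Fin (n + 1)) k} (hGm : VanGm F H) : val y H = 0 := by
  obtain ⟨b, i, i', hi, hi', hb, hwc⟩ := h
  by_contra hG
  let T : MvPolynomial (Fin (n + 1)) k := H * (MvPolynomial.X i * MvPolynomial.X i')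
  have hT : MvPolynomial.aeval y T ≠ 0 := by
    simp only [T, map_mul, MvPolynomial.aeval_X]
    exact mul_ne_zero hG (mul_ne_zero hi hi')
  obtain ⟨x, hx, hx0⟩ := specialise y T hT
  simp only [T, map_mul, MvPolynomial.aeval_X] at hx
  have h3 := right_ne_zero_of_mul hx
  have hd : DiagCurve ∅ F x b := diag_of_wc (fun j hj => absurd hj (Set.notMem_empty j))
    (fun e v => hx0 _ (hwc e v))
    ⟨i, i', left_ne_zero_of_mul h3, right_ne_zero_of_mul h3, hb⟩
  obtain ⟨P, hP, hP1⟩ := gm_of_diag hFf hd
  have h4 := hGm P hP 1 one_ne_zero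
  rw [hP1] at h4
  exact left_ne_zero_of_mul hx h4

/-- linear motions -/
theorem van_walt {F : ι → MvPolynomial (Fin (n + 1)) k} {r d : ι → ℕ}
    {l : ∀ e, Fin (r e) → Fin (n + 1) → k} (hd0 : ∀ e, 0 < d e)
    (hFe : ∀ e, F e = ∑ j, (∑ i, MvPolynomial.C (l e j i) * MvPolynomial.X i) ^ d e) {K : Type}
    [Field K] [Algebra k K] {y : Fin (n + 1) → K} {i0 : Fin (n + 1)} (hi0 : y i0 ≠ 0)
    (h : WAlt l d i0 y) {H : MvPolynomial (Fin (n + 1)) k} (hHf : IsForm H) (hGm : VanGm F H) :
    val y H = 0 := by
  classical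
  obtain ⟨R, v, hRe, hRs, hv0, hv, hZ, hQ⟩ := h
  obtain ⟨j0, hj0'⟩ := Function.ne_iff.1 hv
  have hj0 : v j0 ≠ 0 := hj0'
  refine van_line (v := v) ⟨i0, j0, ?_⟩ (fun c c' e => ?_) hHf hGm
  · rw [hv0, mul_zero, sub_zero]
    exact mul_ne_zero hi0 hj0
  · have h1 : val (fun m => c * y m + c' * v m) (F e) =
        ∑ j, (c * lin (l e j) y + c' * lin (l e j) v) ^ d e := by
      unfold Pool.Agent.W602.GT.val
      rw [hFe e, map_sum]
      refine Finset.sum_congr rfl fun j _ => ?_
      rw [map_pow, map_sum, ← lin_add_smul]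
      simp only [map_mul, MvPolynomial.aeval_C, MvPolynomial.aeval_X]
      rfl
    rw [h1]
    have h2 : ∑ j, (c * lin (l e j) y + c' * lin (l e j) v) ^ d e =
        ∑ j : {j // lin (l e j) y ≠ 0}, (c * lin (l e j.1) y + c' * lin (l e j.1) v) ^ d e := by
      rw [← Finset.sum_subtype (Finset.univ.filter fun j => lin (l e j) y ≠ 0) (by simp)
        (fun j => (c * lin (l e j) y + c' * lin (l e j) v) ^ d e), Finset.sum_filter_of_ne]
      intro j _ hj h0
      apply hj
      rw [h0, hZ e j h0, mul_zero, mul_zero, add_zero, zero_pow (hd0 e).ne']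
    rw [h2]
    have h5 : ∀ i j, R e i j → (c + c' * (lin (l e i.1) v / lin (l e i.1) y)) ^ d e =
        (c + c' * (lin (l e j.1) v / lin (l e j.1) y)) ^ d e := by
      intro i j hij
      have h4 := hQ e i j hij
      have := i.2
      have := j.2
      congr 3
      field_simp
      linear_combination h4
    have h3 : ∑ j : {j // lin (l e j) y ≠ 0}, (c + c' * (lin (l e j.1) v / lin (l e j.1) y)) ^ d e *
        lin (l e j.1) y ^ d e = 0 :=
      weighted_sum (R e) (hRe e) (fun j : {j // lin (l e j) y ≠ 0} => lin (l e j.1) y ^ d e)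
        (fun j => (c + c' * (lin (l e j.1) v / lin (l e j.1) y)) ^ d e) h5
        (fun j0 A hA => hRs e j0 A hA)
    refine Eq.trans (Finset.sum_congr rfl fun j _ => ?_) h3
    have := j.2
    rw [← mul_pow]
    congr 1
    field_simp

/-- **Algebraic points.** A point of `{F = 0}` over a field without systems of circuits lies in the
closure of the union of the images of the multiplicative group. -/
theorem van_circ {F : ι → MvPolynomial (Fin (n + 1)) k} {s N : ℕ} (hF : HighPowers s N F)
    (hN1 : 1 ≤ N) {K : Type} [Field K] [Algebra k K] {w : ℕ} (htr : Algebra.trdeg k K = w)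
    {y : Fin (n + 1) → K} (hne : y ≠ 0) (hgen : Algebra.IsAlgebraic (coords k y) K)
    (hmem : ∀ e, val y (F e) = 0) (hC : ¬ HasCirc k s N w K)
    {H : MvPolynomial (Fin (n + 1)) k} (hHf : IsForm H) (hGm : VanGm F H) : val y H = 0 := by
  classical
  have hff : ∀ e, IsForm (F e) := hF.form
  rcases hF with h | h
  · rcases waring_circ h hN1 htr hmem with h1 | ⟨D, Z, Q, hD, hZ, hQ, hx⟩
    · exact absurd h1 hC
    obtain ⟨i0, hi0'⟩ := Function.ne_iff.1 hne
    have hi0 : y i0 ≠ 0 := hi0'
    let v : Fin (n + 1) → K := fun j => y i0 * D (y j / y i0)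
    have hv0 : v i0 = 0 := by
      change y i0 * D (y i0 / y i0) = 0
      rw [div_self hi0, Derivation.map_one_eq_zero, mul_zero]
    obtain ⟨j0, hj0⟩ : ∃ j, v j ≠ 0 := by
      by_contra hcon
      push Not at hcon
      apply hD
      have h0 : ∀ j, D (y j / y i0) = 0 := fun j =>
        (mul_eq_zero.1 (hcon j)).resolve_left hi0
      refine Pool.Agent.W602.GT.der_eq_zero D {z | ∃ i j, y j ≠ 0 ∧ z = y i / y j} ?_ ?_
      · exact hgen
      · rintro _ ⟨i, j, hj, rfl⟩
        have h1 : y i / y j = (y i / y i0) / (y j / y i0) := by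
          field_simp
        rw [h1, div_eq_mul_inv, D.leibniz, D.leibniz_inv, h0, h0]
        simp
    have hzZ : ∀ l ∈ Z, lin l v = 0 := by
      intro l hl
      rw [Pool.Agent.TH466.QG.lin_der, hZ l hl, zero_div, map_zero, mul_zero]
    have hzQ : ∀ p ∈ Q, lin p.1 v = lin p.1 y / lin p.2 y * lin p.2 v := by
      intro p hp
      obtain ⟨h1, h2, h3⟩ := hQ p hp
      rw [Pool.Agent.TH466.QG.lin_der, Pool.Agent.TH466.QG.lin_der]
      have h4 : lin p.1 y / y i0 = lin p.1 y / lin p.2 y * (lin p.2 y / y i0) := by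
        field_simp
      rw [h4, D.leibniz, h3, smul_zero, add_zero, smul_eq_mul]
      ring
    refine van_line (v := v) ⟨i0, j0, ?_⟩ (fun c c' e => ?_) hHf hGm
    · rw [hv0, mul_zero, sub_zero]
      exact mul_ne_zero hi0 hj0
    · refine hx K _ (fun l hl => ?_) (fun p hp => ?_) e
      · rw [lin_add_smul, hZ l hl, hzZ l hl, mul_zero, mul_zero, add_zero]
      · rw [lin_add_smul, lin_add_smul, hzQ p hp]
        have h2 := (hQ p hp).2.1
        simp only [Algebra.algebraMap_self, RingHom.id_apply]
        field_simp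
  · rcases sparse_circ h htr hgen hmem with h1 | h1
    · exact absurd h1 hC
    · exact van_wt hff h1 hGm

end Pool.Agent.Y221.FQ
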