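import Pool.Agent.Y221.FQ.Deg
import Pool.Agent.Y221.FQ.Mov

/-!
Lifting the points of the image of a finite morphism to finite extensions.
-/

set_option autoImplicit false
set_option maxHeartbeats 400000
set_option linter.overlappingInstances false
set_option linter.unusedSectionVars false

namespace Pool.Agent.Y221.FQ

open Pool.Agent.W602.GT

variable {k : Type} [Field k] [IsAlgClosed k] {m n M : ℕ} {ι κ μ : Type}
  {Ψ : κ → MvPolynomial (Fin (m + 1)) k} {F : ι → MvPolynomial (Fin (n + 1)) k}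
  {Φ : μ → MvPolynomial (Fin (M + 1)) k} {G : Fin (M + 1) → MvPolynomial (Fin (m + 1)) k}
  {B : Fin (n + 1) → MvPolynomial (Fin (m + 1)) k}

theorem Mor.noBase (h : Mor Ψ F B) : NoBase Ψ B := fun x hx hΨ =>
  Function.ne_iff.1 (h.maps x ⟨hx, hΨ⟩).1

/-- polynomials which vanish at the points of the cone vanish at the points over extensions -/
theorem van_of_cone {K : Type} [Field K] [Algebra k K] {z : Fin (M + 1) → K} (hz : z ≠ 0)
    (hzΦ : ∀ e, val z (Φ e) = 0) {H : MvPolynomial (Fin (M + 1)) k}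
    (hH : ∀ q ∈ Cone Φ, val q H = 0) : val z H = 0 := by
  by_contra hcon
  obtain ⟨b, hb⟩ := Function.ne_iff.1 hz
  obtain ⟨x, hx, hx0⟩ := specialise z (H * MvPolynomial.X b) (by
    rw [map_mul, MvPolynomial.aeval_X]
    exact mul_ne_zero hcon hb)
  rw [map_mul, MvPolynomial.aeval_X] at hx
  refine left_ne_zero_of_mul hx (hH x ⟨fun h0 => ?_, fun e => hx0 _ (hzΦ e)⟩)
  exact right_ne_zero_of_mul hx (congrFun h0 b)

theorem Mor.mem (h : Mor Ψ F B) {K : Type} [Field K] [Algebra k K] {u : Fin (m + 1) → K}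
    (hu : u ≠ 0) (huΨ : ∀ e, val u (Ψ e) = 0) : im B u ≠ 0 ∧ ∀ e, val (im B u) (F e) = 0 := by
  constructor
  · intro h0
    obtain ⟨b, hb⟩ := Function.ne_iff.1 hu
    obtain ⟨x, hx, hx0⟩ := specialise (k := k) u (MvPolynomial.X b) (by
      rw [MvPolynomial.aeval_X]
      exact hb)
    rw [MvPolynomial.aeval_X] at hx
    refine (h.maps x ⟨fun h0 => hx (congrFun h0 b), fun e => hx0 _ (huΨ e)⟩).1 ?_
    funext j
    exact hx0 _ (congrFun h0 j)
  · intro e
    rw [val_im]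
    refine van_of_cone hu huΨ fun x hx => ?_
    rw [← val_im]
    exact (h.maps x hx).2 e

theorem alg_back {K Ω : Type} [Field K] [Field Ω] [Algebra k K] [Algebra k Ω]
    {A : IntermediateField k K} (φ : K →ₐ[k] Ω) {x : K} (h : IsAlgebraic (A.map φ) (φ x)) :
    IsAlgebraic A x := by
  obtain ⟨p, hp, hpx⟩ := h
  let σ : A ≃ₐ[k] A.map φ := A.equivMap φ
  have hσ : ∀ a : A.map φ, φ ((σ.symm a : A) : K) = (a : Ω) := by
    intro a
    have h1 : ((σ (σ.symm a) : A.map φ) : Ω) = φ ((σ.symm a : A) : K) := rfl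
    rw [← h1, AlgEquiv.apply_symm_apply]
  refine ⟨p.map (σ.symm : A.map φ →+* A), ?_, ?_⟩
  · rw [Ne, Polynomial.map_eq_zero]
    exact hp
  · apply φ.injective
    change φ _ = φ _
    rw [Polynomial.aeval_def, Polynomial.eval₂_map, map_zero]
    have h1 : φ (Polynomial.eval₂ ((algebraMap A K).comp (σ.symm : A.map φ →+* A)) x p) =
        Polynomial.eval₂ (φ.toRingHom.comp ((algebraMap A K).comp (σ.symm : A.map φ →+* A)))
          (φ x) p := Polynomial.hom_eval₂ _ _ φ.toRingHom _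
    rw [h1]
    have h2 : φ.toRingHom.comp ((algebraMap A K).comp (σ.symm : A.map φ →+* A)) =
        algebraMap (A.map φ) Ω := RingHom.ext fun a => hσ a
    rw [h2]
    exact hpx

/-- **Finiteness.** -/
theorem fin_alg (hΨ : ∀ e, IsForm (Ψ e)) (h : Mor Ψ F B) {K : Type} [Field K] [Algebra k K]
    {u : Fin (m + 1) → K} {i0 : Fin (m + 1)} (hi0 : u i0 ≠ 0) (huΨ : ∀ e, val u (Ψ e) = 0)
    (i : Fin (m + 1)) : IsAlgebraic (coords k (im B u)) (u i / u i0) := by
  have hu : u ≠ 0 := fun h0 => hi0 (congrFun h0 i0)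
  obtain ⟨b, hb⟩ := Function.ne_iff.1 (h.mem hu huΨ).1
  have hb' : im B u b ≠ 0 := hb
  obtain ⟨e, he, hBe⟩ := h.form
  let Ω := AlgebraicClosure K
  let φ : K →ₐ[k] Ω := IsScalarTower.toAlgHom k K Ω
  obtain ⟨c, hc⟩ := IsAlgClosed.exists_pow_nat_eq (φ (im B u b))⁻¹ (by omega : 0 < e)
  have hc0 : c ≠ 0 := by
    rintro rfl
    rw [zero_pow (by omega)] at hc
    exact inv_ne_zero ((map_ne_zero φ).2 hb') hc.symm
  let u' : Fin (m + 1) → Ω := fun i => c * φ (u i)
  have hu' : ∀ i, u' i = c * φ (u i) := fun _ => rfl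
  have hBu : ∀ j, im B u' j = φ (im B u j / im B u b) := by
    intro j
    have h1 : im B u' j = c ^ e * im B (fun i => φ (u i)) j :=
      congrFun (im_smul hBe c (fun i => φ (u i))) j
    have h2 : im B (fun i => φ (u i)) j = φ (im B u j) := by
      unfold im
      rw [val_map]
    rw [h1, h2, hc, map_div₀]
    ring
  have h1 : ∀ i, IsAlgebraic ((coords k (im B u)).map φ) (u' i) := by
    refine const_of hΨ h.noBase he hBe (fun e' => ?_) fun j => ?_
    · obtain ⟨d, hd⟩ := hΨ e'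
      have h2 : val u' (Ψ e') = c ^ d * val (fun i => φ (u i)) (Ψ e') := val_smul hd c _
      rw [h2, ← val_map, huΨ, map_zero, mul_zero]
    · rw [hBu]
      exact ⟨_, IntermediateField.subset_adjoin k _ ⟨j, b, hb', rfl⟩, rfl⟩
  refine alg_back φ ?_
  have h2 : φ (u i / u i0) = u' i * (u' i0)⁻¹ := by
    rw [hu', hu', map_div₀, mul_inv, div_eq_mul_inv]
    have h3 : c * φ (u i) * (c⁻¹ * (φ (u i0))⁻¹) = c * c⁻¹ * (φ (u i) * (φ (u i0))⁻¹) := by ring
    rw [h3, mul_inv_cancel₀ hc0, one_mul]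
  rw [h2]
  exact (h1 i).mul (h1 i0).inv

/-- **Lifting points.** -/
theorem lift_point [CharZero k] (hΨ : ∀ e, IsForm (Ψ e)) (hG : Mor Ψ Φ G) (hon : Onto Ψ Φ G)
    {r : ℕ} (hfib : FibresLe Ψ G r) {E0 : Type} [Field E0] [Algebra k E0] {z : Fin (M + 1) → E0}
    (hz : z ≠ 0) (hzΦ : ∀ e, val z (Φ e) = 0) :
    ∃ (E : Type) (_ : Field E) (_ : Algebra E0 E) (_ : Algebra k E) (_ : IsScalarTower k E0 E)
      (_ : FiniteDimensional E0 E) (u : Fin (m + 1) → E) (i0 : Fin (m + 1)) (c : E),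
      Module.finrank E0 E ≤ r ∧ u i0 = 1 ∧ (∀ e, val u (Ψ e) = 0) ∧ c ≠ 0 ∧
      (∀ j, algebraMap E0 E (z j) = c * im G u j) ∧
      IntermediateField.adjoin E0 (Set.range u) = ⊤ := by
  obtain ⟨e, he, hGe⟩ := hG.form
  let Ω := AlgebraicClosure E0
  obtain ⟨y, hyΨ, hyG⟩ := surj hΨ hG.noBase he hGe (z := fun j => algebraMap E0 Ω (z j)) (by
    intro H hH hH2
    have h1 : val z H = 0 := van_of_cone hz hzΦ fun q hq => by
      obtain ⟨x, hx, rfl⟩ := hon q hq
      exact hH2 x hx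
    have h2 := val_map (IsScalarTower.toAlgHom k E0 Ω) H z
    rw [h1, map_zero] at h2
    exact h2.symm)
  have hy0 : y ≠ 0 := by
    intro h0
    obtain ⟨b, hb⟩ := Function.ne_iff.1 hz
    have h1 := congrFun hyG b
    have h2 : y = fun i => (0 : Ω) * y i := by
      rw [h0]
      funext i
      simp
    rw [h2, im_smul hGe, zero_pow (by omega)] at h1
    simp only [zero_mul] at h1
    exact hb ((map_eq_zero _).1 h1.symm)
  obtain ⟨i0, hi0'⟩ := Function.ne_iff.1 hy0
  have hi0 : y i0 ≠ 0 := hi0'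
  obtain ⟨hfd, hrk⟩ := deg_le hfib hΨ hG.noBase hGe hz hyΨ hyG hi0
  obtain ⟨E, hE⟩ : ∃ E, E = IntermediateField.adjoin E0 (Set.range fun i => y i / y i0) :=
    ⟨_, rfl⟩
  rw [← hE] at hfd hrk
  have hmem : ∀ i, y i / y i0 ∈ E := fun i => by
    rw [hE]
    exact IntermediateField.subset_adjoin E0 _ ⟨i, rfl⟩
  let u : Fin (m + 1) → E := fun i => ⟨y i / y i0, hmem i⟩
  have hu0 : u i0 = 1 := Subtype.ext (div_self hi0)
  let vE : E →ₐ[k] Ω := E.val.restrictScalars k
  have hvu : (fun i => vE (u i)) = fun i => (y i0)⁻¹ * y i := by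
    funext i
    change y i / y i0 = _
    rw [div_eq_mul_inv, mul_comm]
  have huΨ : ∀ e, val u (Ψ e) = 0 := by
    intro e'
    apply vE.injective
    change vE _ = vE _
    obtain ⟨d, hd⟩ := hΨ e'
    rw [val_map, hvu, val_smul hd, hyΨ, mul_zero, map_zero]
  have huG : ∀ a, vE (im G u a) = (y i0)⁻¹ ^ e * algebraMap E0 Ω (z a) := by
    intro a
    rw [← congrFun hyG a]
    unfold im
    rw [val_map, hvu, val_smul (hGe a)]
  obtain ⟨b, hb'⟩ := Function.ne_iff.1 hz
  have hb : z b ≠ 0 := hb'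
  have hbΩ : algebraMap E0 Ω (z b) ≠ 0 := by
    rw [Ne, map_eq_zero]
    exact hb
  have hub : im G u b ≠ 0 := by
    intro h0
    have h1 := huG b
    rw [h0, map_zero] at h1
    exact mul_ne_zero (pow_ne_zero _ (inv_ne_zero hi0)) hbΩ h1.symm
  have hvz : ∀ a, vE (algebraMap E0 E (z a)) = algebraMap E0 Ω (z a) := fun a => rfl
  refine ⟨E, inferInstance, inferInstance, inferInstance, inferInstance, hfd, u, i0,
    algebraMap E0 E (z b) / im G u b, hrk, hu0, huΨ, ?_, fun j => ?_, ?_⟩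
  · refine div_ne_zero ?_ hub
    rw [Ne, map_eq_zero]
    exact hb
  · have h1 : algebraMap E0 E (z j) * im G u b = algebraMap E0 E (z b) * im G u j := by
      apply vE.injective
      change vE _ = vE _
      rw [map_mul, map_mul, huG, huG, hvz, hvz]
      ring
    field_simp
    exact h1
  · apply IntermediateField.lift_injective E
    rw [IntermediateField.lift_top, IntermediateField.lift_adjoin]
    conv_rhs => rw [hE]
    congr 1
    ext x
    constructor
    · rintro ⟨_, ⟨l, rfl⟩, rfl⟩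
      exact ⟨l, rfl⟩
    · rintro ⟨l, rfl⟩
      exact ⟨u l, ⟨l, rfl⟩, rfl⟩

/-- forms on the image -/
theorem van_im (hB : Mor Ψ F B) {H : MvPolynomial (Fin (M + 1)) k}
    (hH : ∀ x ∈ Cone Ψ, im B x ∈ SpGm F → val (im G x) H = 0) {K : Type} [Field K] [Algebra k K]
    {u : Fin (m + 1) → K} {i0 : Fin (m + 1)} (hi0 : u i0 = 1) (huΨ : ∀ e, val u (Ψ e) = 0)
    (hvan : ∀ H', IsForm H' → VanGm F H' → val (im B u) H' = 0) : val (im G u) H = 0 := by
  rw [val_im]
  by_contra hcon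
  obtain ⟨x, hx, hx0⟩ := specialise u (MvPolynomial.aeval G H) hcon
  have hxi : x i0 = 1 := by
    have h1 := hx0 (MvPolynomial.X i0 - 1) (by
      rw [map_sub, MvPolynomial.aeval_X, map_one, hi0, sub_self])
    rw [map_sub, MvPolynomial.aeval_X, map_one] at h1
    exact sub_eq_zero.1 h1
  have hxc : x ∈ Cone Ψ := by
    refine ⟨fun h0 => ?_, fun e => hx0 _ (huΨ e)⟩
    rw [h0] at hxi
    exact zero_ne_one hxi
  apply hx
  have h1 := hH x hxc ⟨hB.maps x hxc, fun H' hH' hGm => ?_⟩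
  · rw [val_im] at h1
    exact h1
  · rw [val_im]
    refine hx0 _ ?_
    have h2 := hvan H' hH' hGm
    rw [val_im] at h2
    exact h2

end Pool.Agent.Y221.FQ
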