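import Pool.Agent.Y221.FQ.Sub
import Pool.Agent.TH143.GT.Fam

/-!
The lift of the generic point of the image is the generic point of a component.
-/

set_option autoImplicit false
set_option maxHeartbeats 400000
set_option linter.overlappingInstances false
set_option linter.unusedSectionVars false

open FF

namespace Pool.Agent.Y221.FQ

open Pool.Agent.W602.GT Algebra

/-- a specialization which preserves the transcendence degree has no new relations -/
theorem spec_back {k E K : Type} [Field k] [Field E] [Field K] [Algebra k E] [Algebra k K]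
    {σ : Type} [Finite σ] {z : σ → E} {x : σ → K}
    (hz : IntermediateField.adjoin k (Set.range z) = ⊤)
    (hsp : ∀ G : MvPolynomial σ k, MvPolynomial.aeval x G = 0 → MvPolynomial.aeval z G = 0)
    (hle : Algebra.trdeg k K ≤ Algebra.trdeg k E) {a : MvPolynomial σ k}
    (ha : MvPolynomial.aeval z a = 0) : MvPolynomial.aeval x a = 0 := by
  have halg : Algebra.IsAlgebraic (IntermediateField.adjoin k (Set.range z)) E := by
    rw [hz]
    infer_instance
  have halg' := alg_adjoin halg
  obtain ⟨B, hB, hBb⟩ := exists_isTranscendenceBasis_subset (R := k) (A := E) (Set.range z)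
  have hBfin : Finite B := (Set.finite_range z).subset hB
  have hcard := hBb.cardinalMk_eq_trdeg
  choose c hc using fun b : B => hB b.2
  have h4 : (z ∘ c : B → E) = Subtype.val := funext hc
  have h1 : AlgebraicIndependent k (x ∘ c : B → K) := by
    rw [algebraicIndependent_iff]
    intro p hp
    have h2 : MvPolynomial.aeval x (MvPolynomial.rename c p) = 0 := by
      rw [MvPolynomial.aeval_rename]
      exact hp
    have h3 := hsp _ h2
    rw [MvPolynomial.aeval_rename, h4] at h3
    exact (algebraicIndependent_iff.1 hBb.1) p h3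
  have h2 : IsTranscendenceBasis k (x ∘ c : B → K) :=
    h1.isTranscendenceBasis_of_trdeg_le_of_finite (by rw [hcard]; exact hle)
  have h3 : Algebra.IsAlgebraic (Algebra.adjoin k (Set.range (x ∘ c))) K := h2.isAlgebraic
  by_contra hne
  obtain ⟨q, hq0, hq⟩ := (h3.isAlgebraic
    (MvPolynomial.aeval x a)).exists_nonzero_coeff_and_aeval_eq_zero
      (mem_nonZeroDivisors_of_ne_zero hne)
  have h5 : ∀ j, ∃ Q : MvPolynomial B k, MvPolynomial.aeval (x ∘ c) Q = (q.coeff j : K) := by
    intro j
    have h6 : (q.coeff j : K) ∈ (MvPolynomial.aeval (R := k) (x ∘ c)).range := by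
      rw [← Algebra.adjoin_range_eq_range_aeval]
      exact (q.coeff j).2
    exact h6
  choose Q hQ using h5
  have h6 : MvPolynomial.aeval x (∑ j ∈ Finset.range (q.natDegree + 1),
      MvPolynomial.rename c (Q j) * a ^ j) = 0 := by
    rw [map_sum, ← hq, Polynomial.aeval_eq_sum_range]
    refine Finset.sum_congr rfl fun j _ => ?_
    rw [map_mul, map_pow, MvPolynomial.aeval_rename, hQ, Algebra.smul_def]
    rfl
  have h7 := hsp _ h6
  rw [map_sum, Finset.sum_eq_single 0] at h7
  · rw [pow_zero, mul_one, MvPolynomial.aeval_rename, h4] at h7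
    have h8 := (algebraicIndependent_iff.1 hBb.1) _ h7
    apply hq0
    apply Subtype.ext
    rw [← hQ 0, h8, map_zero]
    rfl
  · intro j _ hj
    rw [map_mul, map_pow, ha, zero_pow hj, mul_zero]
  · intro h
    exact absurd (Finset.mem_range.2 (Nat.succ_pos _)) h

section cone

variable {k : Type} [Field k] {m : ℕ} {E : Type} [Field E] [Algebra k E]

/-- the generic point of the affine cone -/
noncomputable def cpt (u : Fin (m + 1) → E) : Fin (m + 1) → RatFunc E := fun i =>
  RatFunc.X * algebraMap E (RatFunc E) (u i)

theorem val_cpt_form (u : Fin (m + 1) → E) {H : MvPolynomial (Fin (m + 1)) k} {d : ℕ}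
    (hH : H.IsHomogeneous d) : MvPolynomial.aeval (cpt u) H =
      algebraMap (Polynomial E) (RatFunc E) (Polynomial.C (val u H) * Polynomial.X ^ d) := by
  have h1 := val_smul hH (RatFunc.X : RatFunc E) (fun i => algebraMap E (RatFunc E) (u i))
  have h2 := val_map (IsScalarTower.toAlgHom k E (RatFunc E)) H u
  have h3 : val (fun i => algebraMap E (RatFunc E) (u i)) H =
      algebraMap E (RatFunc E) (val u H) := h2.symm
  rw [h3] at h1
  refine Eq.trans h1 ?_
  rw [map_mul, map_pow, RatFunc.algebraMap_X, mul_comm]
  congr 1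

theorem val_cpt (u : Fin (m + 1) → E) (H : MvPolynomial (Fin (m + 1)) k) :
    MvPolynomial.aeval (cpt u) H = 0 ↔
      ∀ d, val u (MvPolynomial.homogeneousComponent d H) = 0 := by
  have h1 : MvPolynomial.aeval (cpt u) H = algebraMap (Polynomial E) (RatFunc E)
      (∑ d ∈ Finset.range (H.totalDegree + 1),
        Polynomial.C (val u (MvPolynomial.homogeneousComponent d H)) * Polynomial.X ^ d) := by
    conv_lhs => rw [← MvPolynomial.sum_homogeneousComponent H]
    rw [map_sum, map_sum]
    exact Finset.sum_congr rfl fun d _ =>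
      val_cpt_form u (MvPolynomial.homogeneousComponent_isHomogeneous d H)
  constructor
  · intro h d
    rw [h] at h1
    have h2 := (RatFunc.algebraMap_injective E) ((map_zero _).trans h1)
    by_cases hd : d ≤ H.totalDegree
    · have h3 := congrArg (fun q => q.coeff d) h2
      simp only [Polynomial.finsetSum_coeff, Polynomial.coeff_C_mul, Polynomial.coeff_X_pow,
        mul_ite, mul_one, mul_zero, Polynomial.coeff_zero] at h3
      rw [Finset.sum_ite_eq, if_pos (Finset.mem_range.2 (Nat.lt_succ_of_le hd))] at h3
      exact h3.symm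
    · rw [MvPolynomial.homogeneousComponent_eq_zero _ _ (by omega)]
      exact map_zero _
  · intro h
    rw [h1, Finset.sum_eq_zero, map_zero]
    intro d _
    rw [h d, Polynomial.C_0, zero_mul]

theorem val_cpt_form_iff (u : Fin (m + 1) → E) {H : MvPolynomial (Fin (m + 1)) k}
    (hH : IsForm H) : MvPolynomial.aeval (cpt u) H = 0 ↔ val u H = 0 := by
  obtain ⟨d, hd⟩ := hH
  rw [val_cpt_form u hd]
  constructor
  · intro h
    have h1 := (RatFunc.algebraMap_injective E) (h.trans (map_zero _).symm)
    have h2 := congrArg (fun q => q.coeff d) h1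
    simp only [Polynomial.coeff_C_mul, Polynomial.coeff_X_pow, if_true, mul_one,
      Polynomial.coeff_zero] at h2
    exact h2
  · intro h
    rw [h, Polynomial.C_0, zero_mul, map_zero]

theorem cpt_top {u : Fin (m + 1) → E} {i0 : Fin (m + 1)} (hi0 : u i0 ≠ 0)
    (hgen : coords k u = ⊤) : IntermediateField.adjoin k (Set.range (cpt u)) = ⊤ := by
  obtain ⟨T, hT⟩ : ∃ T, T = IntermediateField.adjoin k (Set.range (cpt u)) := ⟨_, rfl⟩
  rw [← hT]
  have hmem : ∀ i, cpt u i ∈ T := fun i => by
    rw [hT]
    exact IntermediateField.subset_adjoin k _ ⟨i, rfl⟩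
  have hE : ∀ x : E, algebraMap E (RatFunc E) x ∈ T := by
    intro x
    have h1 : coords k u ≤ T.comap (IsScalarTower.toAlgHom k E (RatFunc E)) := by
      unfold Pool.Agent.W602.GT.coords
      rw [IntermediateField.adjoin_le_iff]
      rintro _ ⟨i, j, hj, rfl⟩
      change algebraMap E (RatFunc E) (u i / u j) ∈ T
      have h2 : algebraMap E (RatFunc E) (u i / u j) = cpt u i / cpt u j := by
        unfold cpt
        rw [map_div₀, mul_div_mul_left _ _ RatFunc.X_ne_zero]
      rw [h2]
      exact div_mem (hmem _) (hmem _)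
    exact h1 (by rw [hgen]; exact IntermediateField.mem_top)
  have hX : (RatFunc.X : RatFunc E) ∈ T := by
    have h1 : (RatFunc.X : RatFunc E) = cpt u i0 / algebraMap E (RatFunc E) (u i0) := by
      unfold cpt
      rw [mul_div_cancel_right₀]
      rw [Ne, map_eq_zero]
      exact hi0
    rw [h1]
    exact div_mem (hmem _) (hE _)
  have hp : ∀ p : Polynomial E, algebraMap (Polynomial E) (RatFunc E) p ∈ T := by
    intro p
    rw [p.as_sum_range_C_mul_X_pow, map_sum]
    refine sum_mem fun j _ => ?_
    rw [map_mul, map_pow, RatFunc.algebraMap_X]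
    refine mul_mem ?_ (_root_.pow_mem hX _)
    exact hE _
  rw [_root_.eq_top_iff]
  intro x _
  rw [← RatFunc.num_div_denom x]
  exact div_mem (hp _) (hp _)

end cone

end Pool.Agent.Y221.FQ
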