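import Pool.Agent.W602.GT.SpGmDefs
import Pool.Agent.W603.BP.Extn

/-!
Finite morphisms between projective varieties, given by forms of equal degree, and special sets.
-/

set_option autoImplicit false

open FF

namespace Pool.Agent.Y221.FQ

open Pool.Agent.W602.GT Pool.Agent.W603.BP Metric

variable {k : Type} [Field k] {m n : ℕ} {ι κ : Type}

/-- the point with the homogeneous coordinates `G 0 (y), ..., G n (y)` -/
noncomputable def im {K : Type} [Field K] [Algebra k K]
    (G : Fin (n + 1) → MvPolynomial (Fin (m + 1)) k) (y : Fin (m + 1) → K) : Fin (n + 1) → K :=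
  fun j => val y (G j)

/-- `G 0, ..., G n` are forms of the same positive degree, and `(G 0 : ... : G n)` is a morphism
from the projective variety `{Ψ = 0}` to the projective variety `{F = 0}`: for all points `x` of
`{Ψ = 0}` the `G j (x)` are not all zero and they are the coordinates of a point of `{F = 0}`. -/
structure Mor (Ψ : κ → MvPolynomial (Fin (m + 1)) k) (F : ι → MvPolynomial (Fin (n + 1)) k)
    (G : Fin (n + 1) → MvPolynomial (Fin (m + 1)) k) : Prop where
  form : ∃ e, 1 ≤ e ∧ ∀ j, (G j).IsHomogeneous e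
  maps : ∀ x ∈ Cone Ψ, im G x ∈ Cone F

/-- The morphism given by `G` from `{Ψ = 0}` to `{F = 0}` is surjective. -/
def Onto (Ψ : κ → MvPolynomial (Fin (m + 1)) k) (F : ι → MvPolynomial (Fin (n + 1)) k)
    (G : Fin (n + 1) → MvPolynomial (Fin (m + 1)) k) : Prop :=
  ∀ q ∈ Cone F, ∃ x ∈ Cone Ψ, im G x = q

/-- The fibres of the map given by `G` on `{Ψ = 0}` have at most `r` points: among any `r + 1`
points of `{Ψ = 0}` with the same image two are equal. -/
def FibresLe (Ψ : κ → MvPolynomial (Fin (m + 1)) k)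
    (G : Fin (n + 1) → MvPolynomial (Fin (m + 1)) k) (r : ℕ) : Prop :=
  ∀ x : Fin (r + 1) → Fin (m + 1) → k, (∀ i, x i ∈ Cone Ψ) →
    (∀ i j, ∃ c : k, im G (x i) = c • im G (x j)) → ∃ i j, i ≠ j ∧ ∃ c : k, x i = c • x j

/-- All closed subvarieties of positive dimension of `{F = 0}` are of general type. -/
def AllGeneral (F : ι → MvPolynomial (Fin (n + 1)) k) : Prop :=
  ∀ (K : Type) [Field K] [Algebra k K] (w : ℕ) (y : Fin (n + 1) → K), 1 ≤ w →
    SubVar F K w y → GeneralType k K w

/-- `t ↦ (f t 0 : ... : f t n)` is a nonconstant holomorphic map from the complex plane to the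
projective variety `{F = 0}`. -/
structure Entire (F : ι → MvPolynomial (Fin (n + 1)) ℂ) (f : ℂ → Fin (n + 1) → ℂ) : Prop where
  hol : ∀ i, Differentiable ℂ fun t => f t i
  mem : ∀ t, f t ∈ Cone F
  nonconst : ∃ t t', LinearIndependent ℂ ![f t, f t']

/-- The closure in `{F = 0}` of the union of the images of the nonconstant entire curves (as a
cone). -/
def SpH (F : ι → MvPolynomial (Fin (n + 1)) ℂ) : Set (Fin (n + 1) → ℂ) :=
  {x | x ∈ Cone F ∧ ∀ G : MvPolynomial (Fin (n + 1)) ℂ, IsForm G →
    (∀ f, Entire F f → ∀ t, val (f t) G = 0) → val x G = 0}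

/-- `t ↦ (f t 0 : ... : f t n)` is a holomorphic map from the punctured unit disc to the projective
variety `{F = 0}` which does not extend to a holomorphic map from the disc to `ℙⁿ`. -/
structure Essential (F : ι → MvPolynomial (Fin (n + 1)) ℂ) (f : ℂ → Fin (n + 1) → ℂ) : Prop where
  hol : ∀ i, DifferentiableOn ℂ (fun t => f t i) (ball 0 1 \ {0})
  mem : ∀ t ∈ ball (0 : ℂ) 1 \ {0}, f t ∈ Cone F
  ess : ¬ Extends f

/-- The closure in `{F = 0}` of the union of the images of the holomorphic maps from the punctured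
disc with an essential singularity (as a cone). -/
def SpP (F : ι → MvPolynomial (Fin (n + 1)) ℂ) : Set (Fin (n + 1) → ℂ) :=
  {x | x ∈ Cone F ∧ ∀ G : MvPolynomial (Fin (n + 1)) ℂ, IsForm G →
    (∀ f, Essential F f → ∀ t ∈ ball (0 : ℂ) 1 \ {0}, val (f t) G = 0) → val x G = 0}

end Pool.Agent.Y221.FQ
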