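import Pool.Agent.Y221.FQ.Sur

/-!
The degree of the field of the coordinates of a point over the field of the coordinates of its
image.
-/

set_option autoImplicit false
set_option maxHeartbeats 400000
set_option linter.unusedSectionVars false

namespace Pool.Agent.Y221.FQ

open Pool.Agent.W602.GT MvPolynomial

variable {k : Type} [Field k] {n M : ℕ} {ι : Type}

variable [IsAlgClosed k] {F : ι → MvPolynomial (Fin (n + 1)) k}
  {G : Fin (M + 1) → MvPolynomial (Fin (n + 1)) k}

theorem fib_ext {r : ℕ} (hfib : FibresLe F G r) (hG : NoBase F G)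
    {K : Type} [Field K] [Algebra k K] (y : Fin (r + 1) → Fin (n + 1) → K)
    (hy : ∀ i, y i ≠ 0) (hyF : ∀ i e, val (y i) (F e) = 0)
    (hyG : ∀ i j a b, im G (y i) a * im G (y j) b = im G (y i) b * im G (y j) a) :
    ∃ i j, i ≠ j ∧ ∀ a b, y i a * y j b = y i b * y j a := by
  classical
  by_contra hcon
  push Not at hcon
  have h1 : ∀ p : Fin (r + 1) × Fin (r + 1), ∃ q : Fin (n + 1) × Fin (n + 1), p.1 ≠ p.2 →
      y p.1 q.1 * y p.2 q.2 ≠ y p.1 q.2 * y p.2 q.1 := by
    intro p
    by_cases hp : p.1 = p.2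
    · exact ⟨(0, 0), fun h => absurd hp h⟩
    · obtain ⟨a, b, hab⟩ := hcon _ _ hp
      exact ⟨(a, b), fun _ => hab⟩
  choose q hq using h1
  have h2 : ∀ i, ∃ a, y i a ≠ 0 := fun i => Function.ne_iff.1 (hy i)
  choose a ha using h2
  let σ : Type := Fin (r + 1) × Fin (n + 1)
  let z : σ → K := fun s => y s.1 s.2
  let T : ∀ (i : Fin (r + 1)), MvPolynomial (Fin (n + 1)) k →ₐ[k] MvPolynomial σ k := fun i =>
    aeval fun l => X (i, l)
  have hT : ∀ (L : Type) [Field L] [Algebra k L] (u : σ → L) (i : Fin (r + 1))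
      (p : MvPolynomial (Fin (n + 1)) k), aeval u (T i p) = val (fun l => u (i, l)) p := by
    intro L _ _ u i p
    have h3 : (aeval u : MvPolynomial σ k →ₐ[k] L).comp (T i) = aeval fun l => u (i, l) := by
      apply MvPolynomial.algHom_ext
      intro l
      simp only [T]
      rw [AlgHom.comp_apply, aeval_X, aeval_X, aeval_X]
    exact DFunLike.congr_fun h3 p
  let mn : Fin (r + 1) × Fin (r + 1) → MvPolynomial σ k := fun p =>
    if p.1 = p.2 then 1 else X (p.1, (q p).1) * X (p.2, (q p).2) -
      X (p.1, (q p).2) * X (p.2, (q p).1)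
  let H : MvPolynomial σ k := (∏ p, mn p) * ∏ i, X (i, a i)
  have hH : aeval z H ≠ 0 := by
    simp only [H]
    rw [map_mul, map_prod, map_prod]
    refine mul_ne_zero (Finset.prod_ne_zero_iff.2 fun p _ => ?_)
      (Finset.prod_ne_zero_iff.2 fun i _ => ?_)
    · simp only [mn]
      split_ifs with hp
      · rw [map_one]
        exact one_ne_zero
      · rw [map_sub, map_mul, map_mul, aeval_X, aeval_X, aeval_X, aeval_X]
        exact sub_ne_zero.2 (hq p hp)
    · rw [aeval_X]
      exact ha i
  obtain ⟨z0, hz0, hrel⟩ := specialise z H hH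
  simp only [H] at hz0
  rw [map_mul, map_prod, map_prod] at hz0
  have h3 := Finset.prod_ne_zero_iff.1 (left_ne_zero_of_mul hz0)
  have h4 := Finset.prod_ne_zero_iff.1 (right_ne_zero_of_mul hz0)
  let x : Fin (r + 1) → Fin (n + 1) → k := fun i l => z0 (i, l)
  have hx : ∀ i, x i ∈ Cone F := by
    intro i
    refine ⟨fun h0 => ?_, fun e => ?_⟩
    · have h5 := h4 i (Finset.mem_univ i)
      rw [aeval_X] at h5
      exact h5 (congrFun h0 (a i))
    · have h5 := hrel (T i (F e)) (by rw [hT]; exact hyF i e)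
      rw [hT] at h5
      exact h5
  have hxG : ∀ i j, ∃ c : k, im G (x i) = c • im G (x j) := by
    intro i j
    obtain ⟨b, hb⟩ := hG (x j) (hx j).1 (hx j).2
    have h5 : ∀ l, im G (x i) l * im G (x j) b = im G (x i) b * im G (x j) l := by
      intro l
      have h6 := hrel (T i (G l) * T j (G b) - T i (G b) * T j (G l)) (by
        rw [map_sub, map_mul, map_mul, hT, hT, hT, hT]
        exact sub_eq_zero.2 (hyG i j l b))
      rw [map_sub, map_mul, map_mul, hT, hT, hT, hT] at h6
      exact sub_eq_zero.1 h6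
    refine ⟨im G (x i) b / im G (x j) b, ?_⟩
    funext l
    have hb' : im G (x j) b ≠ 0 := hb
    rw [Pi.smul_apply, smul_eq_mul]
    field_simp
    linear_combination h5 l
  obtain ⟨i, j, hij, c, hc⟩ := hfib x hx hxG
  have h5 := h3 (i, j) (Finset.mem_univ _)
  simp only [mn] at h5
  rw [if_neg hij, map_sub, map_mul, map_mul, aeval_X, aeval_X, aeval_X, aeval_X] at h5
  apply h5
  have h6 : ∀ l, z0 (i, l) = c * z0 (j, l) := fun l => congrFun hc l
  rw [h6, h6]
  ring

/-- **The degree.** -/
theorem deg_le [CharZero k] {r : ℕ} (hfib : FibresLe F G r) (hFf : ∀ e, IsForm (F e))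
    (hG : NoBase F G) {e : ℕ} (hGe : ∀ j, (G j).IsHomogeneous e)
    {E0 Ω : Type} [Field E0] [Field Ω] [Algebra k E0] [Algebra k Ω] [Algebra E0 Ω]
    [IsScalarTower k E0 Ω] [IsAlgClosed Ω] [Algebra.IsAlgebraic E0 Ω] {z : Fin (M + 1) → E0}
    (hz : z ≠ 0) {y : Fin (n + 1) → Ω} (hyF : ∀ e, val y (F e) = 0)
    (hyG : im G y = fun j => algebraMap E0 Ω (z j)) {i0 : Fin (n + 1)} (hi0 : y i0 ≠ 0) :
    FiniteDimensional E0 (IntermediateField.adjoin E0 (Set.range fun i => y i / y i0)) ∧
      Module.finrank E0 (IntermediateField.adjoin E0 (Set.range fun i => y i / y i0)) ≤ r := by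
  classical
  have hch : CharZero E0 := charZero_of_injective_algebraMap (algebraMap k E0).injective
  obtain ⟨E, hE⟩ : ∃ E, E = IntermediateField.adjoin E0 (Set.range fun i => y i / y i0) :=
    ⟨_, rfl⟩
  rw [← hE]
  have hfin : FiniteDimensional E0 E := by
    rw [hE]
    exact IntermediateField.finiteDimensional_adjoin fun x _ =>
      (Algebra.IsAlgebraic.isAlgebraic (R := E0) x).isIntegral
  refine ⟨hfin, ?_⟩
  by_contra hcon
  push Not at hcon
  have hmem : ∀ i, y i / y i0 ∈ E := fun i => by
    rw [hE]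
    exact IntermediateField.subset_adjoin E0 _ ⟨i, rfl⟩
  let u : Fin (n + 1) → E := fun i => ⟨y i / y i0, hmem i⟩
  have hu0 : u i0 = 1 := Subtype.ext (div_self hi0)
  let vE : E →ₐ[k] Ω := E.val.restrictScalars k
  have hvu : (fun i => vE (u i)) = fun i => (y i0)⁻¹ * y i := by
    funext i
    change y i / y i0 = _
    rw [div_eq_mul_inv, mul_comm]
  have huF : ∀ e, val u (F e) = 0 := by
    intro e'
    apply vE.injective
    change vE _ = vE _
    obtain ⟨d, hd⟩ := hFf e'
    rw [val_map, hvu, val_smul hd, hyF, mul_zero, map_zero]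
  have huG : ∀ a b, im G u a * algebraMap E0 E (z b) = im G u b * algebraMap E0 E (z a) := by
    intro a b
    apply vE.injective
    have h1 : ∀ a, vE (im G u a) = (y i0)⁻¹ ^ e * algebraMap E0 Ω (z a) := by
      intro a
      rw [← congrFun hyG a]
      unfold im
      rw [val_map, hvu, val_smul (hGe a)]
    have h2 : ∀ b, vE (algebraMap E0 E (z b)) = algebraMap E0 Ω (z b) := fun b => rfl
    change vE _ = vE _
    rw [map_mul, map_mul, h1, h1, h2, h2]
    ring
  have hcard : Fintype.card (Fin (r + 1)) ≤ Fintype.card (E →ₐ[E0] Ω) := by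
    rw [AlgHom.card, Fintype.card_fin]
    exact hcon
  obtain ⟨σ⟩ := Function.Embedding.nonempty_of_card_le hcard
  let σk : Fin (r + 1) → E →ₐ[k] Ω := fun i => (σ i).restrictScalars k
  obtain ⟨b, hb'⟩ := Function.ne_iff.1 hz
  have hb : z b ≠ 0 := hb'
  have hbΩ : algebraMap E0 Ω (z b) ≠ 0 := by
    rw [Ne, map_eq_zero]
    exact hb
  have hσz : ∀ i a, σk i (algebraMap E0 E (z a)) = algebraMap E0 Ω (z a) := fun i a =>
    (σ i).commutes (z a)
  obtain ⟨i, j, hij, h1⟩ := fib_ext hfib hG (fun i l => σk i (u l)) (fun i h0 => by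
    have h1 := congrFun h0 i0
    change σk i (u i0) = 0 at h1
    rw [hu0, map_one] at h1
    exact one_ne_zero h1) (fun i e' => by
      rw [← val_map, huF, map_zero]) (fun i j a c => by
      have h2 : ∀ i a, im G (fun l => σk i (u l)) a * algebraMap E0 Ω (z b) =
          im G (fun l => σk i (u l)) b * algebraMap E0 Ω (z a) := by
        intro i a
        have h3 := congrArg (σk i) (huG a b)
        rw [map_mul, map_mul, hσz, hσz] at h3
        unfold im at h3 ⊢
        rw [val_map, val_map] at h3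
        exact h3
      have h3 : ∀ i a, im G (fun l => σk i (u l)) a =
          im G (fun l => σk i (u l)) b / algebraMap E0 Ω (z b) * algebraMap E0 Ω (z a) := by
        intro i a
        have := h2 i a
        field_simp
        linear_combination this
      rw [h3 i a, h3 j c, h3 i c, h3 j a]
      ring)
  apply hij
  apply σ.injective
  have h2 : ∀ l, σ i (u l) = σ j (u l) := by
    intro l
    have h3 := h1 l i0
    have h4 : ∀ i, σk i (u i0) = 1 := fun i => by rw [hu0, map_one]
    rw [h4, h4, mul_one, one_mul] at h3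
    exact h3
  refine IntermediateField.algHom_ext_of_eq_adjoin E0 hE ?_
  rintro _ ⟨l, rfl⟩
  exact h2 l

end Pool.Agent.Y221.FQ
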