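import Pool.Agent.W602.GT.Gm
import Pool.Agent.W602.GT.War

/-!
Morphisms of projective varieties which are given by forms without common zeros: the coordinate
ring is integral over the subring generated by the forms.
-/

set_option autoImplicit false
set_option maxHeartbeats 400000
set_option linter.unusedSectionVars false

namespace Pool.Agent.Y221.FQ

open Pool.Agent.W602.GT MvPolynomial

variable {k : Type} [Field k] {n M : ℕ} {ι : Type}

/-- the ideal of the polynomials which vanish on the affine cone over `{F = 0}` -/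
def IV (F : ι → MvPolynomial (Fin (n + 1)) k) : Ideal (MvPolynomial (Fin (n + 1)) k) where
  carrier := {p | ∀ x : Fin (n + 1) → k, (∀ e, val x (F e) = 0) → val x p = 0}
  add_mem' := by
    intro a b ha hb x hx
    have h1 : val x (a + b) = val x a + val x b := map_add _ _ _
    rw [h1, ha x hx, hb x hx, add_zero]
  zero_mem' := fun x _ => map_zero _
  smul_mem' := by
    intro c a ha x hx
    have h1 : val x (c • a) = val x c * val x a := map_mul _ _ _
    rw [h1, ha x hx, mul_zero]

theorem mem_IV {F : ι → MvPolynomial (Fin (n + 1)) k} {p : MvPolynomial (Fin (n + 1)) k} :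
    p ∈ IV F ↔ ∀ x : Fin (n + 1) → k, (∀ e, val x (F e) = 0) → val x p = 0 := Iff.rfl

/-- the components of a polynomial which vanishes on a line through the origin -/
theorem comps_zero [Infinite k] {m : ℕ} {p : MvPolynomial (Fin (m + 1)) k} {x : Fin (m + 1) → k}
    (h : ∀ c : k, val (fun i => c * x i) p = 0) (d : ℕ) :
    val x (homogeneousComponent d p) = 0 := by
  let q : Polynomial k := ∑ i ∈ Finset.range (p.totalDegree + 1),
    Polynomial.C (val x (homogeneousComponent i p)) * Polynomial.X ^ i
  have hq : q = 0 := by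
    apply Polynomial.funext
    intro c
    have h1 := h c
    rw [← sum_homogeneousComponent p] at h1
    unfold Pool.Agent.W602.GT.val at h1
    rw [map_sum] at h1
    simp only [q]
    rw [Polynomial.eval_finsetSum, Polynomial.eval_zero, ← h1]
    refine Finset.sum_congr rfl fun i _ => ?_
    rw [Polynomial.eval_mul, Polynomial.eval_C, Polynomial.eval_pow, Polynomial.eval_X, mul_comm]
    exact (val_smul (homogeneousComponent_isHomogeneous i p) c x).symm
  by_cases hd : d ≤ p.totalDegree
  · have h1 := congrArg (fun q => q.coeff d) hq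
    simp only [q, Polynomial.finsetSum_coeff, Polynomial.coeff_C_mul, Polynomial.coeff_X_pow,
      mul_ite, mul_one, mul_zero, Polynomial.coeff_zero] at h1
    rw [Finset.sum_ite_eq, if_pos (Finset.mem_range.2 (Nat.lt_succ_of_le hd))] at h1
    exact h1
  · rw [homogeneousComponent_eq_zero _ _ (by omega)]
    exact map_zero _

theorem IV_comp [Infinite k] {F : ι → MvPolynomial (Fin (n + 1)) k} (hF : ∀ e, IsForm (F e))
    {p : MvPolynomial (Fin (n + 1)) k} (hp : p ∈ IV F) (d : ℕ) :
    homogeneousComponent d p ∈ IV F := by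
  intro x hx
  refine comps_zero (fun c => hp _ fun e => ?_) d
  obtain ⟨d', hd'⟩ := hF e
  rw [val_smul hd', hx e, mul_zero]

theorem comp_mul {G : MvPolynomial (Fin (n + 1)) k} {e : ℕ} (hG : G.IsHomogeneous e)
    (b : MvPolynomial (Fin (n + 1)) k) (d : ℕ) :
    homogeneousComponent d (b * G) =
      if e ≤ d then homogeneousComponent (d - e) b * G else 0 := by
  conv_lhs => rw [← sum_homogeneousComponent b]
  rw [Finset.sum_mul, map_sum]
  have h1 : ∀ i, homogeneousComponent d (homogeneousComponent i b * G) =
      if d = i + e then homogeneousComponent i b * G else 0 := fun i =>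
    homogeneousComponent_of_mem ((homogeneousComponent_isHomogeneous i b).mul hG)
  simp only [h1]
  by_cases hed : e ≤ d
  · rw [if_pos hed]
    by_cases hb : d - e ≤ b.totalDegree
    · rw [Finset.sum_eq_single (d - e)]
      · rw [if_pos (by omega)]
      · intro i _ hi
        rw [if_neg (by omega)]
      · intro h
        exact absurd (Finset.mem_range.2 (Nat.lt_succ_of_le hb)) h
    · rw [homogeneousComponent_eq_zero _ _ (by omega), zero_mul]
      refine Finset.sum_eq_zero fun i hi => ?_
      rw [Finset.mem_range] at hi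
      rw [if_neg (by omega)]
  · rw [if_neg hed]
    refine Finset.sum_eq_zero fun i _ => ?_
    rw [if_neg (by omega)]

/-- the forms have no common zeros on `{F = 0}` -/
def NoBase (F : ι → MvPolynomial (Fin (n + 1)) k) (G : Fin (M + 1) → MvPolynomial (Fin (n + 1)) k) :
    Prop :=
  ∀ x : Fin (n + 1) → k, x ≠ 0 → (∀ e, val x (F e) = 0) → ∃ j, val x (G j) ≠ 0

variable [IsAlgClosed k] {F : ι → MvPolynomial (Fin (n + 1)) k}
  {G : Fin (M + 1) → MvPolynomial (Fin (n + 1)) k}

theorem pow_mem (hFf : ∀ e, IsForm (F e)) (hG : NoBase F G) (i : Fin (n + 1)) : ∃ D, 1 ≤ D ∧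
    (X i : MvPolynomial (Fin (n + 1)) k) ^ D ∈ IV F ⊔ Ideal.span (Set.range G) := by
  set J := IV F ⊔ Ideal.span (Set.range G) with hJ
  have h1 := MvPolynomial.vanishingIdeal_zeroLocus_eq_radical (K := k) J
  have h2 : (X i : MvPolynomial (Fin (n + 1)) k) ∈ vanishingIdeal k (zeroLocus k J) := by
    intro x hx
    have hxF : ∀ e, val x (F e) = 0 := by
      intro e
      refine hx _ (Ideal.mem_sup_left ?_)
      intro y hy
      exact hy e
    have hxG : ∀ j, val x (G j) = 0 := fun j =>
      hx _ (Ideal.mem_sup_right (Ideal.subset_span ⟨j, rfl⟩))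
    have hx0 : x = 0 := by
      by_contra h0
      obtain ⟨j, hj⟩ := hG x h0 hxF
      exact hj (hxG j)
    rw [aeval_X, hx0]
    rfl
  rw [h1] at h2
  obtain ⟨D, hD⟩ := h2
  exact ⟨D + 1, by omega, by rw [pow_succ]; exact Ideal.mul_mem_right _ _ hD⟩

/-- the map of coordinate rings -/
noncomputable def phi (F : ι → MvPolynomial (Fin (n + 1)) k)
    (G : Fin (M + 1) → MvPolynomial (Fin (n + 1)) k) :
    MvPolynomial (Fin (M + 1)) k →ₐ[k] MvPolynomial (Fin (n + 1)) k ⧸ IV F :=
  aeval fun j => Ideal.Quotient.mk (IV F) (G j)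

theorem phi_integral (hFf : ∀ e, IsForm (F e)) (hG : NoBase F G) {e : ℕ} (he : 1 ≤ e)
    (hGe : ∀ j, (G j).IsHomogeneous e) : (phi F G).toRingHom.IsIntegral := by
  classical
  let _ : Algebra (MvPolynomial (Fin (M + 1)) k) (MvPolynomial (Fin (n + 1)) k ⧸ IV F) :=
    (phi F G).toRingHom.toAlgebra
  choose D hD1 hD using pow_mem hFf hG
  obtain ⟨D0, hD0⟩ : ∃ D0, ∀ i, D i ≤ D0 :=
    ⟨∑ i, D i, fun i => Finset.single_le_sum (f := D) (fun _ _ => Nat.zero_le _)
      (Finset.mem_univ i)⟩
  have hDD : ∀ i, (X i : MvPolynomial (Fin (n + 1)) k) ^ D0 ∈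
      IV F ⊔ Ideal.span (Set.range G) := by
    intro i
    have : (X i : MvPolynomial (Fin (n + 1)) k) ^ D0 = X i ^ (D0 - D i) * X i ^ D i := by
      rw [← pow_add, Nat.sub_add_cancel (hD0 i)]
    rw [this]
    exact Ideal.mul_mem_left _ _ (hD i)
  let mon : (Fin (n + 1) → Fin D0) → MvPolynomial (Fin (n + 1)) k ⧸ IV F := fun a =>
    Ideal.Quotient.mk (IV F) (monomial (Finsupp.equivFunOnFinite.symm fun i => (a i : ℕ)) 1)
  let N0 : Submodule (MvPolynomial (Fin (M + 1)) k) (MvPolynomial (Fin (n + 1)) k ⧸ IV F) :=
    Submodule.span _ (Set.range mon)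
  have hC : ∀ (c : k) (b : MvPolynomial (Fin (n + 1)) k ⧸ IV F), b ∈ N0 →
      Ideal.Quotient.mk (IV F) (C c) * b ∈ N0 := by
    intro c b hb
    have h1 : Ideal.Quotient.mk (IV F) (C c) * b =
        (C c : MvPolynomial (Fin (M + 1)) k) • b := by
      rw [Algebra.smul_def]
      congr 1
      exact ((phi F G).commutes c).symm
    rw [h1]
    exact N0.smul_mem _ hb
  have hT : ∀ (j : Fin (M + 1)) (b : MvPolynomial (Fin (n + 1)) k ⧸ IV F), b ∈ N0 →
      b * Ideal.Quotient.mk (IV F) (G j) ∈ N0 := by
    intro j b hb
    have h1 : b * Ideal.Quotient.mk (IV F) (G j) =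
        (X j : MvPolynomial (Fin (M + 1)) k) • b := by
      rw [Algebra.smul_def, mul_comm]
      congr 1
      exact (aeval_X (fun j => Ideal.Quotient.mk (IV F) (G j)) j).symm
    rw [h1]
    exact N0.smul_mem _ hb
  have hind : ∀ d, ∀ p : MvPolynomial (Fin (n + 1)) k, p.IsHomogeneous d →
      Ideal.Quotient.mk (IV F) p ∈ N0 := by
    intro d
    induction d using Nat.strong_induction_on with
    | _ d ih =>
    intro p hp
    have hmon : ∀ α ∈ p.support, Ideal.Quotient.mk (IV F) (monomial α 1) ∈ N0 := by
      intro α hα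
      have hαd : (monomial α (1 : k)).IsHomogeneous d := by
        refine isHomogeneous_monomial 1 ?_
        have := hp (mem_support_iff.1 hα)
        rw [Finsupp.degree_eq_weight_one]
        exact this
      by_cases hbox : ∀ i, α i < D0
      · refine Submodule.subset_span ⟨fun i => ⟨α i, hbox i⟩, ?_⟩
        have h1 : (Finsupp.equivFunOnFinite.symm fun i => α i) = α := by
          ext i
          rfl
        simp only [mon]
        rw [h1]
      · push Not at hbox
        obtain ⟨i, hi⟩ := hbox
        have h1 : (monomial α (1 : k)) ∈ IV F ⊔ Ideal.span (Set.range G) := by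
          have h2 : (monomial α (1 : k)) = monomial (α - Finsupp.single i D0) 1 * X i ^ D0 := by
            rw [X_pow_eq_monomial, monomial_mul, one_mul]
            congr 1
            rw [tsub_add_cancel_of_le]
            rw [Finsupp.single_le_iff]
            exact hi
          rw [h2]
          exact Ideal.mul_mem_left _ _ (hDD i)
        obtain ⟨p0, hp0, q, hq, hpq⟩ := Submodule.mem_sup.1 h1
        obtain ⟨b, hb⟩ := Ideal.mem_span_range_iff_exists_fun.1 hq
        have h2 : (monomial α (1 : k)) = homogeneousComponent d p0 +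
            ∑ j, (if e ≤ d then homogeneousComponent (d - e) (b j) * G j else 0) := by
          have h3 := congrArg (homogeneousComponent d) hpq
          rw [homogeneousComponent_eq_self hαd, map_add, ← hb, map_sum] at h3
          rw [← h3]
          congr 1
          exact Finset.sum_congr rfl fun j _ => comp_mul (hGe j) (b j) d
        rw [h2, map_add, Ideal.Quotient.eq_zero_iff_mem.2 (IV_comp hFf hp0 d), zero_add, map_sum]
        refine Submodule.sum_mem _ fun j _ => ?_
        split_ifs with hed
        · rw [map_mul]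
          exact hT j _ (ih (d - e) (by omega) _ (homogeneousComponent_isHomogeneous _ _))
        · rw [map_zero]
          exact N0.zero_mem
    rw [p.as_sum, map_sum]
    refine Submodule.sum_mem _ fun α hα => ?_
    have h1 : monomial α (coeff α p) = C (coeff α p) * monomial α 1 := by
      rw [C_mul_monomial, mul_one]
    rw [h1, map_mul]
    exact hC _ _ (hmon α hα)
  have htop : N0 = ⊤ := by
    rw [Submodule.eq_top_iff']
    intro b
    obtain ⟨p, rfl⟩ := Ideal.Quotient.mk_surjective b
    rw [← sum_homogeneousComponent p, map_sum]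
    exact Submodule.sum_mem _ fun i _ => hind i _ (homogeneousComponent_isHomogeneous i p)
  have hfin : Module.Finite (MvPolynomial (Fin (M + 1)) k)
      (MvPolynomial (Fin (n + 1)) k ⧸ IV F) := by
    refine ⟨?_⟩
    rw [← htop]
    exact Submodule.fg_span (Set.finite_range mon)
  intro b
  exact Algebra.IsIntegral.isIntegral (R := MvPolynomial (Fin (M + 1)) k) b

end Pool.Agent.Y221.FQ
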