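import Pool.Agent.Y221.FQ.Comp
import Pool.Agent.TH466.QG.Strong

/-!
The lift of the generic point of the image is the generic point of a component.
-/

set_option autoImplicit false
set_option maxHeartbeats 400000
set_option linter.overlappingInstances false
set_option linter.unusedSectionVars false

open FF

namespace Pool.Agent.Y221.FQ

open Pool.Agent.W602.GT Algebra
open Pool.Agent.TH466.QG (alg_over trdeg_alg)
open Pool.Agent.TH143.GT (trdeg_ratFunc)

theorem dim_le' {k L E : Type} [Field k] [Field L] [Field E] [Algebra k L] [Algebra k E]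
    {σ : Type} {x : σ → L} {z : σ → E} (hz : IntermediateField.adjoin k (Set.range z) = ⊤)
    (hsp : ∀ G : MvPolynomial σ k, MvPolynomial.aeval x G = 0 → MvPolynomial.aeval z G = 0) :
    Algebra.trdeg k E ≤ Algebra.trdeg k L := by
  have halg : Algebra.IsAlgebraic (IntermediateField.adjoin k (Set.range z)) E := by
    rw [hz]
    infer_instance
  have halg' := alg_adjoin halg
  obtain ⟨B, hB, hBb⟩ := exists_isTranscendenceBasis_subset (R := k) (A := E) (Set.range z)
  have hcard := hBb.cardinalMk_eq_trdeg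
  choose c hc using fun b : B => hB b.2
  have h1 : AlgebraicIndependent k (fun b : B => x (c b)) := by
    rw [algebraicIndependent_iff]
    intro p hp
    have h2 : MvPolynomial.aeval x (MvPolynomial.rename c p) = 0 := by
      rw [MvPolynomial.aeval_rename]
      exact hp
    have h3 := hsp _ h2
    rw [MvPolynomial.aeval_rename] at h3
    have h4 : (z ∘ c : B → E) = Subtype.val := funext hc
    rw [h4] at h3
    exact (algebraicIndependent_iff.1 hBb.1) p h3
  have h2 := h1.cardinalMk_le_trdeg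
  rw [hcard] at h2
  exact h2

variable {k : Type} [Field k] [IsAlgClosed k] {m M : ℕ} {κ μ : Type}
  {Ψ : κ → MvPolynomial (Fin (m + 1)) k} {Φ : μ → MvPolynomial (Fin (M + 1)) k}
  {G : Fin (M + 1) → MvPolynomial (Fin (m + 1)) k}

/-- minimal primes and components -/
theorem comp_of_min (hΨ : ∀ e, IsForm (Ψ e)) {E : Type} [Field E] [Algebra k E]
    {u : Fin (m + 1) → E} (huΨ : ∀ e, val u (Ψ e) = 0)
    (hmin : ∀ Q ∈ (IV Ψ).minimalPrimes, (∀ p ∈ Q, MvPolynomial.aeval (cpt u) p = 0) →
      ∀ p, MvPolynomial.aeval (cpt u) p = 0 → p ∈ Q) : IsComponent Ψ u := by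
  classical
  have hinf : Infinite k := IsAlgClosed.instInfinite
  obtain ⟨P, hP⟩ : ∃ P : Ideal (MvPolynomial (Fin (m + 1)) k), P = RingHom.ker
      (MvPolynomial.aeval (cpt u) : MvPolynomial (Fin (m + 1)) k →ₐ[k] RatFunc E) := ⟨_, rfl⟩
  have hPp : P.IsPrime := by
    rw [hP]
    exact RingHom.ker_isPrime _
  have hmem : ∀ p, p ∈ P ↔ MvPolynomial.aeval (cpt u) p = 0 := fun p => by
    rw [hP]
    exact RingHom.mem_ker
  have hIP : IV Ψ ≤ P := by
    intro p hp
    rw [hmem, val_cpt]
    exact fun d => val_of_IV huΨ (IV_comp hΨ hp d)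
  obtain ⟨Q, hQ, hQP⟩ := Ideal.exists_minimalPrimes_le hIP
  have hQ2 : Q = P := le_antisymm hQP fun p hp =>
    hmin Q hQ (fun p hp => (hmem p).1 (hQP hp)) p ((hmem p).1 hp)
  rw [hQ2] at hQ
  have hfin : (IV Ψ).minimalPrimes.Finite :=
    Ideal.finite_minimalPrimes_of_isNoetherianRing _ (IV Ψ)
  obtain ⟨T, hT⟩ : ∃ T : Finset (Ideal (MvPolynomial (Fin (m + 1)) k)),
      ∀ Q', Q' ∈ T ↔ Q' ≠ P ∧ Q' ∈ (IV Ψ).minimalPrimes :=
    ⟨hfin.toFinset.erase P, fun Q' => by rw [Finset.mem_erase, Set.Finite.mem_toFinset]⟩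
  have h1 : ¬ T.inf id ≤ P := by
    rw [hPp.inf_le']
    rintro ⟨Q', hQ', hle⟩
    rw [hT] at hQ'
    exact hQ'.1 (le_antisymm hle (hQ.2 hQ'.2.1 hle))
  obtain ⟨h, hh, hhP⟩ := SetLike.not_le_iff_exists.1 h1
  have h2 : ∀ g ∈ P, h * g ∈ IV Ψ := by
    intro g hg
    have h3 : h * g ∈ (IV Ψ).radical := by
      rw [← Ideal.sInf_minimalPrimes, Submodule.mem_sInf]
      intro Q' hQ'
      by_cases hc : Q' = P
      · rw [hc]
        exact Ideal.mul_mem_left _ _ hg
      · have h4 : T.inf id ≤ Q' := Finset.inf_le ((hT Q').2 ⟨hc, hQ'⟩)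
        exact Ideal.mul_mem_right _ _ (h4 hh)
    obtain ⟨N, hN⟩ := h3
    intro x hx
    have h4 := hN x hx
    have h5 : val x ((h * g) ^ N) = (val x (h * g)) ^ N := map_pow _ _ _
    rw [h5] at h4
    exact eq_zero_of_pow_eq_zero h4
  rw [hmem, val_cpt] at hhP
  push Not at hhP
  obtain ⟨d, hd⟩ := hhP
  refine ⟨_, ⟨d, MvPolynomial.homogeneousComponent_isHomogeneous d h⟩, hd,
    fun x hx hxh => ⟨hx.1, fun g hg hgu => ?_⟩⟩
  obtain ⟨e, he⟩ := hg
  have h5 := IV_comp hΨ (h2 g ((hmem g).2 ((val_cpt_form_iff u ⟨e, he⟩).2 hgu))) (d + e)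
  rw [comp_mul he, if_pos (by omega), Nat.add_sub_cancel] at h5
  have h6 := h5 x hx.2
  have h7 : val x (MvPolynomial.homogeneousComponent d h * g) =
      val x (MvPolynomial.homogeneousComponent d h) * val x g := map_mul _ _ _
  rw [h7] at h6
  exact (mul_eq_zero.1 h6).resolve_left hxh

/-- **The lifts of the generic points of the components of the image are components.** -/
theorem comp_lift (hΨ : ∀ e, IsForm (Ψ e)) (hG : Mor Ψ Φ G) {L : Type} [Field L]
    [Algebra k L] {w : ℕ} {z : Fin (M + 1) → L} (hw : Algebra.trdeg k L = w)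
    (hz : IsComponent Φ z) {E : Type} [Field E] [Algebra k E] [Algebra L E] [IsScalarTower k L E]
    (hwE : Algebra.trdeg k E = w) {u : Fin (m + 1) → E} {i0 : Fin (m + 1)} {c : E} (hi0 : u i0 ≠ 0)
    (hgen : coords k u = ⊤) (huΨ : ∀ e, val u (Ψ e) = 0)
    (hcz : ∀ j, algebraMap L E (z j) = c * im G u j) : IsComponent Ψ u := by
  have hinf : Infinite k := IsAlgClosed.instInfinite
  obtain ⟨e, he, hGe⟩ := hG.form
  obtain ⟨H0, hH0f, hH0z, hH0⟩ := hz
  have hH0u : val u (MvPolynomial.aeval G H0) ≠ 0 := by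
    rw [← val_im]
    intro h0
    obtain ⟨d, hd⟩ := hH0f
    have h1 := val_map (IsScalarTower.toAlgHom k L E) H0 z
    have h2 : (fun j => IsScalarTower.toAlgHom k L E (z j)) = fun j => c * im G u j :=
      funext hcz
    rw [h2, val_smul hd, h0, mul_zero] at h1
    exact hH0z ((map_eq_zero _).1 h1)
  refine comp_of_min hΨ huΨ fun Q hQ hQu => ?_
  have hQp : Q.IsPrime := hQ.1.1
  let K1 := FractionRing (MvPolynomial (Fin (m + 1)) k ⧸ Q)
  let x1 : Fin (m + 1) → K1 := fun i =>
    algebraMap (MvPolynomial (Fin (m + 1)) k ⧸ Q) K1 (Ideal.Quotient.mk Q (MvPolynomial.X i))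
  have hx1 : ∀ p : MvPolynomial (Fin (m + 1)) k, MvPolynomial.aeval x1 p =
      algebraMap (MvPolynomial (Fin (m + 1)) k ⧸ Q) K1 (Ideal.Quotient.mk Q p) := by
    intro p
    have h1 : (MvPolynomial.aeval x1 : MvPolynomial (Fin (m + 1)) k →ₐ[k] K1) =
        (IsScalarTower.toAlgHom k (MvPolynomial (Fin (m + 1)) k ⧸ Q) K1).comp
          (Ideal.Quotient.mkₐ k Q) := by
      apply MvPolynomial.algHom_ext
      intro i
      rw [MvPolynomial.aeval_X]
      rfl
    rw [h1]
    rfl
  have hx1Q : ∀ p : MvPolynomial (Fin (m + 1)) k, MvPolynomial.aeval x1 p = 0 ↔ p ∈ Q := by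
    intro p
    rw [hx1, map_eq_zero_iff _ (IsFractionRing.injective _ _), Ideal.Quotient.eq_zero_iff_mem]
  have hx1top : IntermediateField.adjoin k (Set.range x1) = ⊤ := by
    rw [_root_.eq_top_iff]
    intro y _
    obtain ⟨a, b, hb, rfl⟩ := IsFractionRing.div_surjective
      (A := MvPolynomial (Fin (m + 1)) k ⧸ Q) y
    have h1 : ∀ a : MvPolynomial (Fin (m + 1)) k ⧸ Q,
        algebraMap (MvPolynomial (Fin (m + 1)) k ⧸ Q) K1 a ∈
          IntermediateField.adjoin k (Set.range x1) := by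
      intro a
      obtain ⟨p, rfl⟩ := Ideal.Quotient.mk_surjective a
      rw [← hx1]
      refine IntermediateField.algebra_adjoin_le_adjoin k _ ?_
      rw [Algebra.adjoin_range_eq_range_aeval]
      exact ⟨p, rfl⟩
    exact div_mem (h1 a) (h1 b)
  have hx1Ψ : ∀ e, val x1 (Ψ e) = 0 := fun e => (hx1Q _).2 (hQ.1.2 fun x hx => hx e)
  obtain ⟨A, hA⟩ : ∃ A, A = IntermediateField.adjoin k (Set.range (im G x1)) := ⟨_, rfl⟩
  have hmem : ∀ j, im G x1 j ∈ A := fun j => by
    rw [hA]
    exact IntermediateField.subset_adjoin k _ ⟨j, rfl⟩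
  have halg : Algebra.IsAlgebraic A K1 :=
    alg_over (E := K1) (K := K1) hx1top A fun i => const_of hΨ hG.noBase he hGe hx1Ψ hmem i
  let ζ : Fin (M + 1) → A := fun j => ⟨im G x1 j, hmem j⟩
  have hζ : IntermediateField.adjoin k (Set.range ζ) = ⊤ := by
    apply IntermediateField.lift_injective A
    rw [IntermediateField.lift_top, IntermediateField.lift_adjoin]
    conv_rhs => rw [hA]
    congr 1
    ext x
    constructor
    · rintro ⟨_, ⟨l, rfl⟩, rfl⟩
      exact ⟨l, rfl⟩
    · rintro ⟨l, rfl⟩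
      exact ⟨ζ l, ⟨l, rfl⟩, rfl⟩
  have hle : Algebra.trdeg k A ≤ Algebra.trdeg k (RatFunc L) := by
    refine dim_le' hζ (x := cpt z) fun H hH => ?_
    rw [val_cpt] at hH
    have h1 : MvPolynomial.aeval G (H0 * H) ∈ Q := by
      refine hQ.1.2 fun x hx => ?_
      change val x (MvPolynomial.aeval G (H0 * H)) = 0
      rw [← val_im]
      change MvPolynomial.aeval (im G x) (H0 * H) = 0
      rw [map_mul, mul_eq_zero, or_iff_not_imp_left]
      intro hne
      rw [← MvPolynomial.sum_homogeneousComponent H, map_sum]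
      refine Finset.sum_eq_zero fun d _ => ?_
      by_cases hx0 : x = 0
      · have h2 : im G x = fun j => (0 : k) ^ e * im G x j := by
          conv_lhs => rw [hx0, show (0 : Fin (m + 1) → k) = fun i => (0 : k) * x i by
            funext i; simp]
          rw [im_smul hGe]
        rw [zero_pow (by omega)] at h2
        have h3 := val_smul (MvPolynomial.homogeneousComponent_isHomogeneous d H) (0 : k)
          (im G x)
        rw [← h2] at h3
        by_cases hd : d = 0
        · subst hd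
          have h4 := hH 0
          rw [MvPolynomial.homogeneousComponent_zero] at h4 ⊢
          have h5 : val z (MvPolynomial.C (MvPolynomial.coeff 0 H)) =
              algebraMap k L (MvPolynomial.coeff 0 H) := MvPolynomial.aeval_C _ _
          rw [h5, map_eq_zero] at h4
          rw [h4, map_zero, map_zero]
        · rw [zero_pow hd, zero_mul] at h3
          exact h3
      · exact (hH0 _ (hG.maps x ⟨hx0, hx⟩) hne).2 _
          ⟨d, MvPolynomial.homogeneousComponent_isHomogeneous d H⟩ (hH d)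
    rw [map_mul] at h1
    have h2 : val (im G x1) H = 0 := by
      rw [val_im]
      refine (hx1Q _).2 ((hQp.mem_or_mem h1).resolve_left fun h3 => hH0u ?_)
      exact (val_cpt_form_iff u (form_im hGe hH0f)).1 (hQu _ h3)
    apply A.val.injective
    change A.val _ = A.val _
    rw [map_zero, ← h2]
    exact val_map A.val H ζ
  have hle2 : Algebra.trdeg k K1 ≤ Algebra.trdeg k (RatFunc E) := by
    rw [trdeg_alg (E := A) (K := K1), trdeg_ratFunc k E hwE, ← trdeg_ratFunc k L hw]
    exact hle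
  intro p hp
  rw [← hx1Q]
  exact spec_back (z := cpt u) (x := x1) (cpt_top hi0 hgen)
    (fun p hp => hQu p ((hx1Q p).1 hp)) hle2 hp

end Pool.Agent.Y221.FQ
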