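import Pool.Agent.Y221.FQ.Int
import Pool.Agent.Y221.FQ.Defs

/-!
Points of the image of a morphism over extension fields.
-/

set_option autoImplicit false
set_option maxHeartbeats 400000
set_option linter.unusedSectionVars false

namespace Pool.Agent.Y221.FQ

open Pool.Agent.W602.GT MvPolynomial

/-- lying over -/
theorem exists_point {R S Ω : Type} [CommRing R] [CommRing S] [Field Ω] [IsAlgClosed Ω]
    (φ : R →+* S) (hφ : φ.IsIntegral) (ζ : R →+* Ω) (hker : RingHom.ker φ ≤ RingHom.ker ζ) :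
    ∃ η : S →+* Ω, ∀ x, η (φ x) = ζ x := by
  let _ : Algebra R S := φ.toAlgebra
  have hint : Algebra.IsIntegral R S := ⟨hφ⟩
  have hP : (RingHom.ker ζ).IsPrime := RingHom.ker_isPrime ζ
  obtain ⟨Q, -, hQ, hQP⟩ := Ideal.exists_ideal_over_prime_of_isIntegral (RingHom.ker ζ)
    (⊥ : Ideal S) hker
  have hPQ : (Q.comap (algebraMap R S)).IsPrime := by
    rw [hQP]
    exact hP
  let ζ' : R ⧸ Q.comap (algebraMap R S) →+* Ω := Ideal.Quotient.lift _ ζ (by
    intro a ha
    rw [hQP] at ha
    exact ha)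
  have hζ' : Function.Injective ζ' := by
    rw [injective_iff_map_eq_zero]
    intro a ha
    obtain ⟨b, rfl⟩ := Ideal.Quotient.mk_surjective a
    rw [Ideal.Quotient.eq_zero_iff_mem, hQP]
    exact ha
  let _ : Algebra (R ⧸ Q.comap (algebraMap R S)) Ω := ζ'.toAlgebra
  have h1 : Function.Injective (algebraMap (R ⧸ Q.comap (algebraMap R S)) (S ⧸ Q)) :=
    Ideal.quotientMap_injective' le_rfl
  have h2 : Module.IsTorsionFree (R ⧸ Q.comap (algebraMap R S)) (S ⧸ Q) :=
    Module.isTorsionFree_iff_algebraMap_injective.2 h1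
  have h3 : Module.IsTorsionFree (R ⧸ Q.comap (algebraMap R S)) Ω :=
    Module.isTorsionFree_iff_algebraMap_injective.2 hζ'
  have h4 : Algebra.IsIntegral (R ⧸ Q.comap (algebraMap R S)) (S ⧸ Q) :=
    Algebra.IsIntegral.quotient
  let η : S ⧸ Q →ₐ[R ⧸ Q.comap (algebraMap R S)] Ω := IsAlgClosed.lift
  refine ⟨η.toRingHom.comp (Ideal.Quotient.mk Q), fun x => ?_⟩
  exact η.commutes (Ideal.Quotient.mk _ x)

variable {k : Type} [Field k] {n M : ℕ} {ι : Type}

theorem val_im {K : Type} [Field K] [Algebra k K]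
    (G : Fin (M + 1) → MvPolynomial (Fin (n + 1)) k) (y : Fin (n + 1) → K)
    (H : MvPolynomial (Fin (M + 1)) k) : val (im G y) H = val y (aeval G H) := by
  unfold im Pool.Agent.W602.GT.val
  have h1 : (aeval y : MvPolynomial (Fin (n + 1)) k →ₐ[k] K).comp (aeval G) =
      aeval fun j => aeval y (G j) := by
    apply MvPolynomial.algHom_ext
    intro i
    rw [AlgHom.comp_apply, aeval_X, aeval_X]
  exact (DFunLike.congr_fun h1 H).symm

theorem form_im {G : Fin (M + 1) → MvPolynomial (Fin (n + 1)) k} {e : ℕ}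
    (hGe : ∀ j, (G j).IsHomogeneous e) {H : MvPolynomial (Fin (M + 1)) k} (hH : IsForm H) :
    IsForm (aeval G H) := by
  obtain ⟨d, hd⟩ := hH
  exact ⟨e * d, hd.aeval G hGe⟩

theorem im_smul {K : Type} [Field K] [Algebra k K]
    {G : Fin (M + 1) → MvPolynomial (Fin (n + 1)) k} {e : ℕ} (hGe : ∀ j, (G j).IsHomogeneous e)
    (c : K) (y : Fin (n + 1) → K) : im G (fun i => c * y i) = fun j => c ^ e * im G y j := by
  funext j
  exact val_smul (hGe j) c y

variable [IsAlgClosed k] {F : ι → MvPolynomial (Fin (n + 1)) k}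
  {G : Fin (M + 1) → MvPolynomial (Fin (n + 1)) k}

theorem phi_eq (H : MvPolynomial (Fin (M + 1)) k) :
    phi F G H = Ideal.Quotient.mk (IV F) (aeval G H) := by
  have h1 : phi F G = (Ideal.Quotient.mkₐ k (IV F)).comp (aeval G) := by
    apply MvPolynomial.algHom_ext
    intro i
    rw [AlgHom.comp_apply, aeval_X]
    exact aeval_X _ i
  rw [h1]
  rfl

/-- polynomials which vanish on the variety vanish at its points over extensions -/
theorem val_of_IV {K : Type} [Field K] [Algebra k K] {y : Fin (n + 1) → K}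
    (hy : ∀ e, val y (F e) = 0) {p : MvPolynomial (Fin (n + 1)) k} (hp : p ∈ IV F) :
    val y p = 0 := by
  by_contra hcon
  obtain ⟨x, hx, hx0⟩ := specialise y p hcon
  exact hx (hp x fun e => hx0 _ (hy e))

/-- **Surjectivity over algebraically closed extensions.** -/
theorem surj (hFf : ∀ e, IsForm (F e)) (hG : NoBase F G) {e : ℕ} (he : 1 ≤ e)
    (hGe : ∀ j, (G j).IsHomogeneous e) {Ω : Type} [Field Ω] [Algebra k Ω] [IsAlgClosed Ω]
    {z : Fin (M + 1) → Ω}
    (hz : ∀ H : MvPolynomial (Fin (M + 1)) k, IsForm H → (∀ x ∈ Cone F, val (im G x) H = 0) →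
      val z H = 0) :
    ∃ y : Fin (n + 1) → Ω, (∀ e, val y (F e) = 0) ∧ im G y = z := by
  have hinf : Infinite k := IsAlgClosed.instInfinite
  obtain ⟨η, hη⟩ := exists_point (phi F G).toRingHom (phi_integral hFf hG he hGe)
    (aeval z : MvPolynomial (Fin (M + 1)) k →ₐ[k] Ω).toRingHom (by
      intro H hH
      have hH' : aeval G H ∈ IV F := by
        rw [← Ideal.Quotient.eq_zero_iff_mem, ← phi_eq]
        exact hH
      change aeval z H = 0
      rw [← sum_homogeneousComponent H, map_sum]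
      refine Finset.sum_eq_zero fun d _ => ?_
      refine hz _ ⟨d, homogeneousComponent_isHomogeneous d H⟩ fun x hx => ?_
      refine comps_zero (fun c => ?_) d
      obtain ⟨μ, hμ⟩ := IsAlgClosed.exists_pow_nat_eq c (by omega : 0 < e)
      have h1 : (fun j => c * im G x j) = im G (fun i => μ * x i) := by
        rw [im_smul hGe, hμ]
      rw [h1, val_im]
      refine hH' _ fun e' => ?_
      obtain ⟨d', hd'⟩ := hFf e'
      rw [val_smul hd', hx.2 e', mul_zero])
  let η' : MvPolynomial (Fin (n + 1)) k →+* Ω := η.comp (Ideal.Quotient.mk (IV F))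
  have hη' : ∀ p, η' p = aeval (fun i => η' (X i)) p := by
    intro p
    have hC : ∀ c : k, η' (C c) = algebraMap k Ω c := by
      intro c
      have h1 := hη (C c)
      have h2 : (phi F G).toRingHom (C c) = Ideal.Quotient.mk (IV F) (C c) :=
        (phi F G).commutes c
      rw [h2] at h1
      rw [show η' (C c) = η (Ideal.Quotient.mk (IV F) (C c)) from rfl, h1]
      exact (aeval z : MvPolynomial (Fin (M + 1)) k →ₐ[k] Ω).commutes c
    induction p using MvPolynomial.induction_on with
    | C c =>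
      rw [hC, aeval_C]
    | add p q hp hq =>
      rw [map_add, map_add, hp, hq]
    | mul_X p i hp =>
      rw [map_mul, map_mul, hp, aeval_X]
  refine ⟨fun i => η' (X i), fun e' => ?_, ?_⟩
  · change aeval (fun i => η' (X i)) (F e') = 0
    rw [← hη']
    have h1 : F e' ∈ IV F := fun x hx => hx e'
    change η (Ideal.Quotient.mk (IV F) (F e')) = 0
    rw [Ideal.Quotient.eq_zero_iff_mem.2 h1, map_zero]
  · funext j
    change aeval (fun i => η' (X i)) (G j) = z j
    rw [← hη']
    have h1 := hη (X j)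
    have h2 : (phi F G).toRingHom (X j) = Ideal.Quotient.mk (IV F) (G j) := aeval_X _ j
    rw [h2] at h1
    change η (Ideal.Quotient.mk (IV F) (G j)) = z j
    rw [h1]
    exact aeval_X _ j

/-- **Finiteness.** -/
theorem const_of (hFf : ∀ e, IsForm (F e)) (hG : NoBase F G) {e : ℕ} (he : 1 ≤ e)
    (hGe : ∀ j, (G j).IsHomogeneous e) {K : Type} [Field K] [Algebra k K]
    {A : IntermediateField k K} {y : Fin (n + 1) → K} (hy : ∀ e, val y (F e) = 0)
    (hA : ∀ j, im G y j ∈ A) (i : Fin (n + 1)) : IsAlgebraic A (y i) := by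
  obtain ⟨p, hp, hpX⟩ := phi_integral hFf hG he hGe (Ideal.Quotient.mk (IV F) (X i))
  let η : MvPolynomial (Fin (n + 1)) k ⧸ IV F →+* K :=
    Ideal.Quotient.lift (IV F) (aeval y : MvPolynomial (Fin (n + 1)) k →ₐ[k] K).toRingHom
      fun p hp => val_of_IV hy hp
  let a : Fin (M + 1) → A := fun j => ⟨im G y j, hA j⟩
  let ψ : MvPolynomial (Fin (M + 1)) k →+* A :=
    (aeval a : MvPolynomial (Fin (M + 1)) k →ₐ[k] A).toRingHom
  have hψ : ∀ H, algebraMap A K (ψ H) = η (phi F G H) := by
    intro H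
    rw [phi_eq]
    have h1 : (aeval y : MvPolynomial (Fin (n + 1)) k →ₐ[k] K).comp (aeval G) =
        (A.val).comp (aeval a) := by
      apply MvPolynomial.algHom_ext
      intro j
      rw [AlgHom.comp_apply, AlgHom.comp_apply, aeval_X, aeval_X]
      rfl
    exact (DFunLike.congr_fun h1 H).symm
  refine IsIntegral.isAlgebraic ⟨p.map ψ, hp.map ψ, ?_⟩
  rw [Polynomial.eval₂_map]
  have h1 : (algebraMap A K).comp ψ = η.comp (phi F G).toRingHom := RingHom.ext fun H => hψ H
  rw [h1]
  have h2 := congrArg η hpX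
  rw [Polynomial.hom_eval₂, map_zero] at h2
  have h3 : η (Ideal.Quotient.mk (IV F) (X i)) = y i := aeval_X _ i
  rw [h3] at h2
  exact h2

end Pool.Agent.Y221.FQ
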